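import Pool.Agent.W2helper80.UL.Shf

/-! Long affine relations between the points of sets whose exponential sums are small at all the
frequencies between `C/T` and `e log T`. -/

set_option autoImplicit false

open Finset MeasureTheory Complex
open scoped ComplexConjugate

namespace Pool.Agent.W2helper80.UL

open Pool.Agent.TH801.LR hiding main

/-- frequencies of a cluster -/
lemma freq2 (b L T C e Y v v' u : ℝ) (K K' M : ℕ) (hb : 0 < b) (hL : 0 < L) (hT : 0 < T)
    (hK : 1 ≤ K') (hM : 1 ≤ M) (he : (K : ℝ) ≤ 2 * K' * e)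
    (hYM : Y = (M : ℝ) / (4 * K')) (hgap : C * b ≤ T * L * |v - v'|)
    (hnear : |v - v'| ≤ 2 * b / M) (hu1 : L / (2 * Real.pi * b) < |u|)
    (hu2 : |u| ≤ L / (2 * Real.pi * b) * Y) (k : ℤ) (hk : k ≠ 0) (hkK : |k| ≤ K) :
    C / T ≤ |k * (2 * Real.pi * v * u - 2 * Real.pi * v' * u)| ∧
      |k * (2 * Real.pi * v * u - 2 * Real.pi * v' * u)| ≤ e * L := by
  have hpi := Real.pi_pos
  have hK0 : (0 : ℝ) < K' := by exact_mod_cast hK
  have hM0 : (0 : ℝ) < M := by exact_mod_cast hM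
  have e1 : |k * (2 * Real.pi * v * u - 2 * Real.pi * v' * u)| =
      |(k : ℝ)| * (2 * Real.pi * (|v - v'| * |u|)) := by
    have : (k : ℝ) * (2 * Real.pi * v * u - 2 * Real.pi * v' * u) =
        k * (2 * Real.pi * ((v - v') * u)) := by ring
    rw [this, abs_mul, abs_mul, abs_mul (v - v'), abs_of_pos (by positivity : 0 < 2 * Real.pi)]
  rw [e1]
  have hk1 : (1 : ℝ) ≤ |(k : ℝ)| := by
    have : (1 : ℤ) ≤ |k| := Int.one_le_abs hk
    exact_mod_cast this
  have hk2 : |(k : ℝ)| ≤ K := by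
    have : ((|k| : ℤ) : ℝ) ≤ ((K : ℤ) : ℝ) := by exact_mod_cast hkK
    rw [Int.cast_abs] at this
    simpa using this
  constructor
  · have h1 : |v - v'| * (L / (2 * Real.pi * b)) ≤ |v - v'| * |u| :=
      mul_le_mul_of_nonneg_left hu1.le (abs_nonneg _)
    have h2 : C / T ≤ 2 * Real.pi * (|v - v'| * (L / (2 * Real.pi * b))) := by
      have h3 : 2 * Real.pi * (|v - v'| * (L / (2 * Real.pi * b))) = L * |v - v'| / b := by
        field_simp
      rw [h3, div_le_div_iff₀ hT hb]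
      linarith
    have h4 : C / T ≤ 2 * Real.pi * (|v - v'| * |u|) := by
      refine h2.trans ?_
      gcongr
    have h5 : 0 ≤ 2 * Real.pi * (|v - v'| * |u|) := by positivity
    nlinarith
  · have h1 : |v - v'| * |u| ≤ 2 * b / M * (L / (2 * Real.pi * b) * Y) :=
      mul_le_mul hnear hu2 (abs_nonneg _) (by positivity)
    have h2 : 2 * Real.pi * (2 * b / M * (L / (2 * Real.pi * b) * Y)) = L / (2 * K') := by
      rw [hYM]
      field_simp
      norm_num
    have h3 : 2 * Real.pi * (|v - v'| * |u|) ≤ L / (2 * K') := by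
      rw [← h2]; gcongr
    calc |(k : ℝ)| * (2 * Real.pi * (|v - v'| * |u|)) ≤ K * (L / (2 * K')) :=
          mul_le_mul hk2 h3 (by positivity) (Nat.cast_nonneg _)
      _ ≤ (2 * K' * e) * (L / (2 * K')) := by gcongr
      _ = e * L := by field_simp

/-- the number of the values on a subset of the indices, two indices omitted -/
lemma card_rest2 {n : ℕ} (c : Fin n → ℝ) (J : Finset (Fin n)) (i0 i1 : Fin n)
    (hJ : ∀ i ∈ J, ∀ j ∈ J, i ≠ j → c i ≠ c j) :
    J.card ≤ (((J.erase i0).erase i1).image c).card + 2 := by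
  classical
  have h1 : (((J.erase i0).erase i1).image c).card = ((J.erase i0).erase i1).card := by
    apply card_image_of_injOn
    intro i hi j hj hij
    by_contra h
    exact hJ i (mem_of_mem_erase (mem_of_mem_erase hi)) j
      (mem_of_mem_erase (mem_of_mem_erase hj)) h hij
  rw [h1]
  have h2 := pred_card_le_card_erase (s := J) (a := i0)
  have h3 := pred_card_le_card_erase (s := J.erase i0) (a := i1)
  omega

theorem abs_main (Γ : ℝ → Finset ℝ) (wt : ℝ → ℝ → ℝ) (C1 P T1 : ℝ) (hC1 : 1 ≤ C1) (hP : 0 < P)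
    (hw1 : ∀ T : ℝ, T1 ≤ T → ∀ x ∈ Γ T, 1 ≤ wt T x)
    (hz1 : ∀ T : ℝ, T1 ≤ T → ∑ x ∈ Γ T, wt T x ≤ C1 * (T * Real.log T))
    (hz2 : ∀ ε : ℝ, 0 < ε → ∃ e C T2 : ℝ, 0 < e ∧ 0 < C ∧ ∀ T : ℝ, T2 ≤ T → ∀ v : ℝ,
      C / T ≤ |v| → |v| ≤ e * Real.log T →
      ‖∑ x ∈ Γ T, (wt T x : ℂ) * cexp (I * ((v * x : ℝ) : ℂ))‖ ≤ ε * (T * Real.log T))
    (hz3 : ∀ T : ℝ, T1 ≤ T →
      ∑ x ∈ Γ T, ∑ y ∈ Γ T, 1 / (1 + (Real.log T * (x - y)) ^ 2) ≤ P * (T * Real.log T))
    (η : ℝ) (hη : 0 < η) : ∃ K T₀ : ℝ, 0 < K ∧ ∀ T : ℝ, T₀ ≤ T →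
      ∀ (n : ℕ) (c : Fin n → ℝ) (a : ℝ) (A : Fin n → Finset ℝ) (J : Finset (Fin n)),
      (∀ k, c k ≠ 0) →
      (∀ i ∈ J, ∀ j ∈ J, i ≠ j → ∀ k, K * |c k| ≤ T * Real.log T * |c i - c j|) →
      (∀ k, A k ⊆ Γ T) → (∀ k, η * (T * Real.log T) ≤ (A k).card) →
      2 ≤ J.card → ∀ i j, i ≠ j →
      (((Fintype.piFinset A).filter (fun x : Fin n → ℝ => |∑ k, c k * x k - a| ≤
        min |c i| |c j| / (J.card * Real.log T))).card : ℝ) ≤
      K / J.card * (∏ k, ((A k).card : ℝ)) / (T * Real.log T) := by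
  classical
  have hC10 : 0 < C1 := by linarith
  set η' : ℝ := min (η / C1) 1 with hη'
  have hη'0 : 0 < η' := lt_min (by positivity) one_pos
  obtain ⟨KF, q, ε, hKF, hε, hε1, hclu⟩ := cluster η' hη'0 (min_le_right _ _)
  obtain ⟨e, C, T2, he, hC, hz2⟩ := hz2 ε hε
  obtain ⟨K', hK'⟩ := exists_nat_ge (max (KF / (2 * e)) 1 : ℝ)
  have hK'1 : 1 ≤ K' := by
    have : (1 : ℝ) ≤ K' := (le_max_right _ _).trans hK'
    exact_mod_cast this
  have hK'e : (KF : ℝ) ≤ 2 * K' * e := by
    have h1 : KF / (2 * e) ≤ K' := (le_max_left _ _).trans hK'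
    rw [div_le_iff₀ (by positivity)] at h1
    linarith
  obtain ⟨m1, R, hR, hm12, hpar⟩ := paramB ε hε hε1 q K' hK'1
  set B : ℝ := 88 * P / η' ^ 2 with hB
  have hB0 : 0 < B := by positivity
  have hm10 : (0 : ℝ) < m1 := by exact_mod_cast (by omega : 0 < m1)
  set K : ℝ := max (B * m1 + B * R) C with hK
  have hKa : B * R ≤ K := by
    have : 0 ≤ B * m1 := by positivity
    have := le_max_left (B * m1 + B * R) C
    linarith
  have hKb : B * m1 ≤ K := by
    have : 0 ≤ B * R := by positivity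
    have := le_max_left (B * m1 + B * R) C
    linarith
  have hKC : C ≤ K := le_max_right _ _
  have hK0 : 0 < K := hC.trans_le hKC
  refine ⟨K, max (max T1 T2) 100, hK0, ?_⟩
  intro T hT n c a A J hc0 hgap hAO hAc hm2 i j hij
  have hTT1 : T1 ≤ T := (le_max_left _ _).trans ((le_max_left _ _).trans hT)
  have hTT2 : T2 ≤ T := (le_max_right _ _).trans ((le_max_left _ _).trans hT)
  have hT100 : 100 ≤ T := (le_max_right _ _).trans hT
  have hT0 : 0 < T := by linarith
  have hL1 : 1 ≤ Real.log T := by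
    rw [Real.le_log_iff_exp_le hT0]
    have := Real.exp_one_lt_d9
    linarith
  set m := J.card with hm
  set L := Real.log T with hL
  have hL0 : 0 < L := by linarith
  set t := T * L with ht
  have ht0 : 0 < t := by positivity
  set N := C1 * t with hN
  have hN0 : 0 < N := by positivity
  have htN : t ≤ N := by
    rw [hN]
    exact le_mul_of_one_le_left ht0.le hC1
  have hwm : ∀ x ∈ Γ T, 1 ≤ wt T x := hw1 T hTT1
  have hwN : ∑ x ∈ Γ T, wt T x ≤ N := hz1 T hTT1
  have hAη : ∀ k, η' * N ≤ (A k).card := by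
    intro k
    refine le_trans ?_ (hAc k)
    have h1 : η' ≤ η / C1 := min_le_left _ _
    calc η' * N ≤ η / C1 * N := mul_le_mul_of_nonneg_right h1 hN0.le
      _ = η * t := by rw [hN]; field_simp
  have hPN : ∑ x ∈ Γ T, ∑ y ∈ Γ T, 1 / (1 + (L * (x - y)) ^ 2) ≤ P * N := by
    refine (hz3 T hTT1).trans ?_
    exact mul_le_mul_of_nonneg_left htN hP.le
  obtain ⟨i0, i1, h01, h10, hmax⟩ := two_largest c i j hij
  have hZ0 : 0 ≤ ∏ k, ((A k).card : ℝ) := prod_nonneg fun _ _ => Nat.cast_nonneg _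
  have hmr2 : (2 : ℝ) ≤ m := by exact_mod_cast hm2
  have hm0 : (0 : ℝ) < m := by linarith
  have hminb : min |c i| |c j| ≤ |c i1| := by
    by_cases h : i = i0
    · have : j ≠ i0 := fun h2 => hij (h.trans h2.symm)
      exact (min_le_right _ _).trans (hmax j this)
    · exact (min_le_left _ _).trans (hmax i h)
  set w := min |c i| |c j| / (m * L) with hw
  have hb : 0 < |c i1| := abs_pos.2 (hc0 i1)
  have hJ : ∀ i ∈ J, ∀ j ∈ J, i ≠ j → c i ≠ c j := by
    intro i hi j hj hij h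
    have h1 := hgap i hi j hj hij i
    rw [h, sub_self, abs_zero, mul_zero] at h1
    have h2 : 0 < K * |c j| := mul_pos hK0 (abs_pos.2 (hc0 j))
    linarith
  by_cases hmm : m1 ≤ m
  · -- many distinct coefficients
    obtain ⟨M, hM1, hY1, hYm, hS⟩ := hpar m hmm
    set Y := (M : ℝ) / (4 * K') with hY
    set rest := (univ.erase i0).erase i1 with hrest
    set V := ((J.erase i0).erase i1).image c with hV
    have hVc : m ≤ V.card + 2 := card_rest2 c J i0 i1 hJ
    have hVR : V ⊆ rest.image c :=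
      image_subset_image (erase_subset_erase _ (erase_subset_erase _ (subset_univ _)))
    have hVb : ∀ v ∈ V, |v| ≤ |c i1| := by
      intro v hv
      obtain ⟨k, hk, rfl⟩ := mem_image.1 hv
      exact hmax k (mem_erase.1 (mem_erase.1 hk).2).1
    set κ : ℝ := (1 - ε) ^ (V.card - q * (M + 1)) with hκ
    have hκ0 : 0 ≤ κ := pow_nonneg (by linarith) _
    have hS2 := hS V.card hVc
    have hst := step1_sh a c A (Γ T) N P L hL0 hPN hAO i0 i1 h01 h10 hb Y κ w hY1
      hκ0 (by
        rw [hw]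
        rw [div_le_div_iff₀ (by positivity) (by positivity)]
        have h1 : 0 ≤ min |c i| |c j| := le_min (abs_nonneg _) (abs_nonneg _)
        calc min |c i| |c j| * (L * Y) ≤ |c i1| * (L * m) := by gcongr
          _ = _ := by ring) (by
        intro u hu1 hu2
        refine step2 c A (Γ T) (wt T) N η' ε KF q hN0 hwm hwN hε hε1 hclu
          (fun k => ⟨hAO k, hAη k⟩) i0 rest V hVR
          (cl |c i1| M) (M + 1) (fun v hv => cl_range _ hb M v (hVb v hv)) u ?_
        intro v hv v' hv' hvv hcell k hk hkK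
        obtain ⟨x, hx, hxv⟩ := mem_image.1 hv
        obtain ⟨x', hx', hxv'⟩ := mem_image.1 hv'
        have hg : C * |c i1| ≤ T * L * |v - v'| := by
          rw [← hxv, ← hxv']
          have h1 := hgap x (mem_of_mem_erase (mem_of_mem_erase hx)) x'
            (mem_of_mem_erase (mem_of_mem_erase hx')) (fun h => hvv (by rw [← hxv, ← hxv', h])) i1
          refine le_trans ?_ h1
          exact mul_le_mul_of_nonneg_right hKC (abs_nonneg _)
        obtain ⟨f1, f2⟩ := freq2 |c i1| L T C e Y v v' u KF K' M hb hL0 hT0 hK'1 hM1 hK'e hY hg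
          (cl_near _ hb M hM1 v v' (hVb v hv) (hVb v' hv') hcell) hu1 hu2 k hk hkK
        have := hz2 T hTT2 _ f1 f2
        exact this.trans (mul_le_mul_of_nonneg_left htN hε.le))
    have h3 := step3 A i0 i1 h01 N η' P (1 / Y + κ) _ t hη'0 ht0 htN hP.le
      (add_nonneg (by positivity) hκ0) hAη hst
    exact fin_num _ B R m _ _ t K h3 hB0.le hZ0 ht0 hS2 hm0 hKa
  · -- few distinct coefficients
    have hst := step1_sh a c A (Γ T) N P L hL0 hPN hAO i0 i1 h01 h10 hb 1 0 w le_rfl le_rfl (by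
        rw [hw, mul_one, div_le_div_iff₀ (by positivity) hL0]
        have h1 : 0 ≤ min |c i| |c j| := le_min (abs_nonneg _) (abs_nonneg _)
        have h2 : L ≤ m * L := by nlinarith
        exact mul_le_mul hminb h2 hL0.le (abs_nonneg _)) (by
        intro u hu1 hu2
        rw [mul_one] at hu2
        exact absurd hu1 (not_lt.2 hu2))
    have h3 := step3 A i0 i1 h01 N η' P (1 / 1 + 0) _ t hη'0 ht0 htN hP.le (by norm_num)
      hAη hst
    refine fin_num _ B m1 m _ _ t K h3 hB0.le hZ0 ht0 ?_ hm0 hKb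
    have hmm1 : (m : ℝ) ≤ m1 := by
      push Not at hmm
      exact_mod_cast hmm.le
    rw [mul_one_div, le_div_iff₀ hm0]
    linarith

end Pool.Agent.W2helper80.UL
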