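import Pool.Agent.W2helper80.UL.Jb
import Pool.Agent.H345R2.SI.Outer

/-! The exponential sum over the zeros with ordinates in `(X, 3X/2]`, without any hypothesis on the
real parts, at all frequencies between `C/X` and `e log X`. -/

set_option autoImplicit false

open Finset MeasureTheory Complex
open scoped ComplexConjugate

namespace Pool.Agent.W2helper80.UL

open H370

/-- the zeros are on average close to the critical line (Selberg) -/
def Dens (F : ℂ → ℂ) : Prop := ∃ δ C T0 : ℝ, 0 < δ ∧ 0 ≤ C ∧ ∀ X : ℝ, T0 ≤ X →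
  ∑ s ∈ Zf F X (3 / 2 * X), (mult F s : ℝ) * Real.exp (δ * (Real.log X * |s.re - 1 / 2|)) ≤
    C * (X * Real.log X)

lemma exp_conv (θ y : ℝ) (h0 : 0 ≤ θ) (h1 : θ ≤ 1) : Real.exp (θ * y) - 1 ≤ θ * Real.exp y := by
  have h := convexOn_exp.2 (Set.mem_univ y) (Set.mem_univ (0 : ℝ)) h0 (sub_nonneg.2 h1)
    (by ring)
  simp only [smul_eq_mul, mul_zero, add_zero, Real.exp_zero, mul_one] at h
  linarith

/-- one zero: moving it to the critical line -/
lemma move (u : ℝ) (s : ℂ) :
    ‖cexp (I * u * zz s) - cexp (I * ((u * s.im : ℝ) : ℂ))‖ ≤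
      Real.exp (|u| * |s.re - 1 / 2|) - 1 := by
  have e1 : cexp (I * u * zz s) = cexp (I * ((u * s.im : ℝ) : ℂ)) *
      ((Real.exp (u * (s.re - 1 / 2)) : ℝ) : ℂ) := by
    rw [Complex.ofReal_exp, ← Complex.exp_add]
    congr 1
    have h : zz s = (s.im : ℂ) + ((-(s.re - 1 / 2) : ℝ) : ℂ) * I := by
      apply Complex.ext
      · rw [zz_re]; simp
      · rw [zz_im]; simp
    rw [h]
    push_cast
    have hI : I * I = -1 := I_mul_I
    linear_combination (-(u : ℂ) * ((s.re : ℂ) - 1 / 2)) * hI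
  have e2 : cexp (I * u * zz s) - cexp (I * ((u * s.im : ℝ) : ℂ)) =
      cexp (I * ((u * s.im : ℝ) : ℂ)) * ((Real.exp (u * (s.re - 1 / 2)) - 1 : ℝ) : ℂ) := by
    rw [e1]; push_cast; ring
  rw [e2, norm_mul, Complex.norm_real]
  have e3 : ‖cexp (I * ((u * s.im : ℝ) : ℂ))‖ = 1 := by
    rw [mul_comm]; exact Complex.norm_exp_ofReal_mul_I _
  rw [e3, one_mul, Real.norm_eq_abs]
  set y := u * (s.re - 1 / 2) with hy
  have hy2 : |u| * |s.re - 1 / 2| = |y| := by rw [hy, abs_mul]
  rw [hy2, abs_le]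
  constructor
  · have h1 : Real.exp (-|y|) ≤ Real.exp y := Real.exp_le_exp.2 (neg_abs_le y)
    have h2 : 2 ≤ Real.exp |y| + Real.exp (-|y|) := by
      have := Real.add_one_le_exp |y|
      have h3 : 0 < Real.exp |y| := Real.exp_pos _
      have h4 : Real.exp |y| * Real.exp (-|y|) = 1 := by rw [← Real.exp_add]; simp
      nlinarith [sq_nonneg (Real.exp |y| - 1), Real.exp_pos (-|y|)]
    linarith
  · have h1 : Real.exp y ≤ Real.exp |y| := Real.exp_le_exp.2 (le_abs_self y)
    linarith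

/-- moving all the zeros to the critical line -/
lemma move_sum {F : ℂ → ℂ} (hd : Dens F) (ε : ℝ) (hε : 0 < ε) : ∃ e T0 : ℝ, 0 < e ∧ 1 ≤ T0 ∧
    ∀ X : ℝ, T0 ≤ X → ∀ u : ℝ, |u| ≤ e * Real.log X →
      ‖(∑ s ∈ Zf F X (3 / 2 * X), (mult F s : ℂ) * cexp (I * u * zz s)) -
        ∑ s ∈ Zf F X (3 / 2 * X), (mult F s : ℂ) * cexp (I * ((u * s.im : ℝ) : ℂ))‖ ≤
        ε * (X * Real.log X) := by
  obtain ⟨δ, C, T0, hδ, hC, h⟩ := hd
  set θ : ℝ := min 1 (ε / (C + 1)) with hθ
  have hθ0 : 0 < θ := lt_min one_pos (by positivity)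
  have hθ1 : θ ≤ 1 := min_le_left _ _
  have hθ2 : θ * C ≤ ε := by
    have h1 : θ ≤ ε / (C + 1) := min_le_right _ _
    rw [le_div_iff₀ (by positivity)] at h1
    nlinarith
  refine ⟨θ * δ, max T0 1, by positivity, le_max_right _ _, ?_⟩
  intro X hX u hu
  have hX1 : 1 ≤ X := (le_max_right _ _).trans hX
  have hL : 0 ≤ Real.log X := Real.log_nonneg hX1
  have h1 := h X ((le_max_left _ _).trans hX)
  rw [← sum_sub_distrib]
  refine (norm_sum_le _ _).trans ?_
  have h2 : ∀ s ∈ Zf F X (3 / 2 * X), ‖(mult F s : ℂ) * cexp (I * u * zz s) -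
      (mult F s : ℂ) * cexp (I * ((u * s.im : ℝ) : ℂ))‖ ≤
      θ * ((mult F s : ℝ) * Real.exp (δ * (Real.log X * |s.re - 1 / 2|))) := by
    intro s _
    rw [← mul_sub, norm_mul, Complex.norm_natCast]
    have h3 := move u s
    have h4 : Real.exp (|u| * |s.re - 1 / 2|) ≤
        Real.exp (θ * (δ * (Real.log X * |s.re - 1 / 2|))) := by
      apply Real.exp_le_exp.2
      calc |u| * |s.re - 1 / 2| ≤ (θ * δ * Real.log X) * |s.re - 1 / 2| := by gcongr
        _ = _ := by ring
    have h5 := exp_conv θ (δ * (Real.log X * |s.re - 1 / 2|)) hθ0.le hθ1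
    calc (mult F s : ℝ) * ‖cexp (I * u * zz s) - cexp (I * ((u * s.im : ℝ) : ℂ))‖ ≤
        (mult F s : ℝ) * (θ * Real.exp (δ * (Real.log X * |s.re - 1 / 2|))) := by
          refine mul_le_mul_of_nonneg_left ?_ (Nat.cast_nonneg _)
          linarith
      _ = _ := by ring
  refine (sum_le_sum h2).trans ?_
  rw [← mul_sum]
  calc θ * ∑ s ∈ Zf F X (3 / 2 * X), (mult F s : ℝ) * Real.exp (δ * (Real.log X * |s.re - 1 / 2|))
      ≤ θ * (C * (X * Real.log X)) := by gcongr
    _ = (θ * C) * (X * Real.log X) := by ring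
    _ ≤ ε * (X * Real.log X) := by gcongr

/-- the region outside -/
lemma outer1 {F : ℂ → ℂ} (hF : GoodL F) : ∃ C T0 : ℝ, 0 < C ∧ 100 ≤ T0 ∧ ∀ X : ℝ, T0 ≤ X →
    ∀ u : ℝ, 0 ≤ u →
    ∫ t in (Set.Icc (X + Real.log X) (3 / 2 * X - Real.log X))ᶜ, ‖AA F X (3 / 2 * X) u t‖ ≤
      C * Real.exp (u / 2) * Real.log X ^ 2 := by
  classical
  obtain ⟨C1, hC1, hZ⟩ := Zg_le hF
  obtain ⟨C2, hC2, hN⟩ := NN_crude hF
  refine ⟨2 * (4 * C1 + C2 * 4), max 100 (Real.exp 8), by positivity, le_max_left _ _, ?_⟩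
  intro X hX u hu
  have hX100 : 100 ≤ X := (le_max_left _ _).trans hX
  have hX0 : 0 < X := by linarith
  have hX1 : 1 ≤ X := by linarith
  have hL8 : 8 ≤ Real.log X := (Real.le_log_iff_exp_le hX0).2 ((le_max_right _ _).trans hX)
  set L := Real.log X with hL
  set B := 3 / 2 * X with hB
  set Zs := Zf F X B with hZs
  have hNN : (NN F X B : ℝ) ≤ C2 * (X * L) := hN X (by linarith) X B le_rfl (by linarith)
  have hZX : ∀ t, Zg F X B t ≤ C1 * L := fun t => hZ X (by linarith) X B le_rfl (by linarith) t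
  set g : ℝ → ℝ := fun t => ∑ s ∈ Zs, (mult F s : ℝ) * Real.exp (-(s.im - t) ^ 2 / 4) with hg
  have hg0 : ∀ t, 0 ≤ g t := fun t => sum_nonneg fun s _ => by positivity
  have hgi : ∀ γ : ℝ, Integrable (fun t : ℝ => Real.exp (-(γ - t) ^ 2 / 4)) ∧
      ∫ t : ℝ, Real.exp (-(γ - t) ^ 2 / 4) = 2 * Real.sqrt Real.pi := by
    intro γ
    have h1 : Integrable (fun t : ℝ => Real.exp (-(1 / 4 : ℝ) * t ^ 2)) :=
      integrable_exp_neg_mul_sq (by norm_num)
    have h2 : ∫ t : ℝ, Real.exp (-(1 / 4 : ℝ) * t ^ 2) = Real.sqrt (Real.pi / (1 / 4)) :=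
      integral_gaussian _
    have h3 : Real.sqrt (Real.pi / (1 / 4)) = 2 * Real.sqrt Real.pi := by
      rw [show Real.pi / (1 / 4) = 2 ^ 2 * Real.pi by ring, Real.sqrt_mul (by norm_num),
        Real.sqrt_sq (by norm_num)]
    have e : (fun t : ℝ => Real.exp (-(γ - t) ^ 2 / 4)) =
        fun t => (fun x : ℝ => Real.exp (-(1 / 4 : ℝ) * x ^ 2)) (t - γ) := by
      funext t
      show _ = Real.exp (-(1 / 4 : ℝ) * (t - γ) ^ 2)
      congr 1; ring
    rw [e]
    refine ⟨h1.comp_sub_right γ, ?_⟩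
    rw [integral_sub_right_eq_self (fun x : ℝ => Real.exp (-(1 / 4 : ℝ) * x ^ 2)) γ, h2, h3]
  have hgI : Integrable g := integrable_finsetSum _ fun s _ => (hgi s.im).1.const_mul _
  have hgint : ∫ t, g t = (NN F X B : ℝ) * (2 * Real.sqrt Real.pi) := by
    simp only [hg]
    rw [integral_finsetSum _ fun s _ => (hgi s.im).1.const_mul _, NN_eq hF hX1, Nat.cast_sum,
      sum_mul]
    refine sum_congr rfl fun s _ => ?_
    rw [integral_const_mul, (hgi s.im).2]
  set Ψ : ℝ → ℝ := fun t => 2 * Real.exp (u / 2) * (C1 * L *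
    ((Set.Icc (X - L) (X + L)).indicator (fun _ => (1 : ℝ)) t +
      (Set.Icc (B - L) (B + L)).indicator (fun _ => (1 : ℝ)) t) +
    Real.exp (-L ^ 2 / 4) * g t) with hΨ
  have hind : ∀ x y : ℝ, Integrable ((Set.Icc x y).indicator (fun _ => (1 : ℝ))) := by
    intro x y
    rw [integrable_indicator_iff measurableSet_Icc]
    exact integrableOn_const (by simp)
  have hΨi : Integrable Ψ :=
    ((((hind _ _).add (hind _ _)).const_mul _).add (hgI.const_mul _)).const_mul _
  have hindint : ∀ x : ℝ, ∫ t, (Set.Icc (x - L) (x + L)).indicator (fun _ => (1 : ℝ)) t = 2 * L := by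
    intro x
    rw [integral_indicator measurableSet_Icc, setIntegral_const, smul_eq_mul, mul_one,
      Measure.real, Real.volume_Icc, ENNReal.toReal_ofReal (by linarith)]
    ring
  have hΨint : ∫ t, Ψ t = 2 * Real.exp (u / 2) * (C1 * L * (2 * L + 2 * L) +
      Real.exp (-L ^ 2 / 4) * ((NN F X B : ℝ) * (2 * Real.sqrt Real.pi))) := by
    have i1 : Integrable (fun t => C1 * L *
        ((Set.Icc (X - L) (X + L)).indicator (fun _ => (1 : ℝ)) t +
          (Set.Icc (B - L) (B + L)).indicator (fun _ => (1 : ℝ)) t)) :=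
      ((hind _ _).add (hind _ _)).const_mul _
    have i2 : Integrable (fun t => Real.exp (-L ^ 2 / 4) * g t) := hgI.const_mul _
    have e1 : ∫ t, C1 * L *
        ((Set.Icc (X - L) (X + L)).indicator (fun _ => (1 : ℝ)) t +
          (Set.Icc (B - L) (B + L)).indicator (fun _ => (1 : ℝ)) t) = C1 * L * (2 * L + 2 * L) := by
      rw [integral_const_mul, integral_add (hind _ _) (hind _ _), hindint, hindint]
    have e2 : ∫ t, Real.exp (-L ^ 2 / 4) * g t = Real.exp (-L ^ 2 / 4) *
        ((NN F X B : ℝ) * (2 * Real.sqrt Real.pi)) := by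
      rw [integral_const_mul, hgint]
    simp only [hΨ]
    rw [integral_const_mul, integral_add i1 i2, e1, e2]
  have hΨ0 : ∀ t, 0 ≤ Ψ t := by
    intro t
    have h1 : ∀ x y : ℝ, 0 ≤ (Set.Icc x y).indicator (fun _ => (1 : ℝ)) t := fun x y =>
      Set.indicator_nonneg (fun _ _ => zero_le_one) _
    have h2 := h1 (X - L) (X + L)
    have h3 := h1 (B - L) (B + L)
    have h4 := hg0 t
    simp only [hΨ]
    positivity
  have hle : ∀ t ∈ (Set.Icc (X + L) (B - L))ᶜ, ‖AA F X B u t‖ ≤ Ψ t := by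
    intro t ht
    refine (AA_le_Zg hF hX1 u t hu).trans ?_
    simp only [hΨ]
    refine mul_le_mul_of_nonneg_left ?_ (by positivity)
    have h1 : ∀ x y : ℝ, 0 ≤ (Set.Icc x y).indicator (fun _ => (1 : ℝ)) t := fun x y =>
      Set.indicator_nonneg (fun _ _ => zero_le_one) _
    by_cases h2 : t ∈ Set.Icc (X - L) (X + L)
    · rw [Set.indicator_of_mem h2]
      have h3 := h1 (B - L) (B + L)
      have h4 := hZX t
      have h5 : 0 ≤ Real.exp (-L ^ 2 / 4) * g t := mul_nonneg (Real.exp_pos _).le (hg0 t)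
      have h6 : 0 ≤ C1 * L := by positivity
      nlinarith
    · by_cases h3 : t ∈ Set.Icc (B - L) (B + L)
      · rw [Set.indicator_of_mem h3]
        have h3 := h1 (X - L) (X + L)
        have h4 := hZX t
        have h5 : 0 ≤ Real.exp (-L ^ 2 / 4) * g t := mul_nonneg (Real.exp_pos _).le (hg0 t)
        have h6 : 0 ≤ C1 * L := by positivity
        nlinarith
      · have h4 : t < X - L ∨ B + L < t := by
          rw [Set.mem_compl_iff, Set.mem_Icc, not_and_or, not_le, not_le] at ht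
          rw [Set.mem_Icc, not_and_or, not_le, not_le] at h2 h3
          rcases ht with ht | ht
          · left
            rcases h2 with h | h
            · exact h
            · linarith
          · right
            rcases h3 with h | h
            · linarith
            · exact h
        have h5 : Zg F X B t ≤ Real.exp (-L ^ 2 / 4) * g t := by
          unfold Zg
          simp only [hg]
          rw [mul_sum]
          refine sum_le_sum fun s hs => ?_
          have hs' := (mem_Zf hF hX1).1 hs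
          have h6 : L ^ 2 ≤ (s.im - t) ^ 2 := by
            rcases h4 with h | h
            · exact pow_le_pow_left₀ (by linarith) (by linarith [hs'.2.2.1]) 2
            · have h7 : (s.im - t) ^ 2 = (t - s.im) ^ 2 := by ring
              rw [h7]
              exact pow_le_pow_left₀ (by linarith) (by linarith [hs'.2.2.2.1]) 2
          have h7 : Real.exp (-(s.im - t) ^ 2 / 2) ≤
              Real.exp (-L ^ 2 / 4) * Real.exp (-(s.im - t) ^ 2 / 4) := by
            rw [← Real.exp_add]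
            apply Real.exp_le_exp.2
            linarith
          calc (mult F s : ℝ) * Real.exp (-(s.im - t) ^ 2 / 2) ≤
              (mult F s : ℝ) * (Real.exp (-L ^ 2 / 4) * Real.exp (-(s.im - t) ^ 2 / 4)) :=
                mul_le_mul_of_nonneg_left h7 (Nat.cast_nonneg _)
            _ = _ := by ring
        have h6 := h1 (X - L) (X + L)
        have h7 := h1 (B - L) (B + L)
        have h8 : 0 ≤ C1 * L * ((Set.Icc (X - L) (X + L)).indicator (fun _ => (1 : ℝ)) t +
          (Set.Icc (B - L) (B + L)).indicator (fun _ => (1 : ℝ)) t) := by positivity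
        linarith
  have h1 : ∫ t in (Set.Icc (X + L) (B - L))ᶜ, ‖AA F X B u t‖ ≤ ∫ t, Ψ t := by
    refine le_trans (setIntegral_mono_on (AA_int hF hX1 u).norm.integrableOn hΨi.integrableOn
      measurableSet_Icc.compl hle) ?_
    exact setIntegral_le_integral hΨi (Filter.Eventually.of_forall hΨ0)
  refine h1.trans ?_
  rw [hΨint]
  have hpi4 := Real.pi_lt_four
  have hsqpi : Real.sqrt Real.pi ≤ 2 := by
    rw [Real.sqrt_le_left (by norm_num)]; linarith
  have hsq0 := Real.sqrt_nonneg Real.pi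
  have h2 : Real.exp (-L ^ 2 / 4) * ((NN F X B : ℝ) * (2 * Real.sqrt Real.pi)) ≤ C2 * 4 * L ^ 2 := by
    have h3 : Real.exp (-L ^ 2 / 4) * X ≤ 1 := by
      have h4 : X = Real.exp L := (Real.exp_log hX0).symm
      rw [h4, ← Real.exp_add]
      apply Real.exp_le_one_iff.2
      nlinarith
    have h4 : (NN F X B : ℝ) * (2 * Real.sqrt Real.pi) ≤ C2 * (X * L) * 4 :=
      mul_le_mul hNN (by linarith) (by positivity) (by positivity)
    calc Real.exp (-L ^ 2 / 4) * ((NN F X B : ℝ) * (2 * Real.sqrt Real.pi)) ≤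
        Real.exp (-L ^ 2 / 4) * (C2 * (X * L) * 4) := by gcongr
      _ = C2 * 4 * L * (Real.exp (-L ^ 2 / 4) * X) := by ring
      _ ≤ C2 * 4 * L * 1 := by gcongr
      _ ≤ C2 * 4 * L ^ 2 := by
          have : L ≤ L ^ 2 := by nlinarith
          have h9 : 0 ≤ C2 * 4 := by positivity
          nlinarith
  calc 2 * Real.exp (u / 2) * (C1 * L * (2 * L + 2 * L) +
      Real.exp (-L ^ 2 / 4) * ((NN F X B : ℝ) * (2 * Real.sqrt Real.pi))) ≤
      2 * Real.exp (u / 2) * (C1 * L * (2 * L + 2 * L) + C2 * 4 * L ^ 2) := by gcongr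
    _ = _ := by ring

end Pool.Agent.W2helper80.UL
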