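import Pool.Agent.W2helper80.UL.Ful
import Pool.Agent.W2helper80.UL.Abs

/-! A finite family of L-functions: all the ordinates together. -/

set_option autoImplicit false

open Finset MeasureTheory Complex
open scoped ComplexConjugate

namespace Pool.Agent.W2helper80.UL

open H370
open Pool.Agent.TH801.LR (recur norm_ex sum_inv_int)

theorem cell0 (Γ : Finset ℝ) (L : ℝ) :
    ∑ x ∈ Γ, ∑ y ∈ Γ, 1 / (1 + (L * (x - y)) ^ 2) ≤ 3 * (∑' d : ℤ, 1 / (1 + (d : ℝ) ^ 2)) *
      ∑ b ∈ Γ.image (fun x => ⌊L * x⌋), ((Γ.filter (fun x => ⌊L * x⌋ = b)).card : ℝ) ^ 2 := by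
  classical
  set S := ∑' d : ℤ, 1 / (1 + (d : ℝ) ^ 2) with hS
  set j : ℝ → ℤ := fun x => ⌊L * x⌋ with hj
  set G : ℤ → ℝ := fun d => 1 / (1 + (d : ℝ) ^ 2) with hG
  have hG0 : ∀ d, 0 ≤ G d := fun d => by simp only [hG]; positivity
  have hGs : ∀ P : Finset ℤ, ∑ d ∈ P, G d ≤ S := fun P =>
    sum_inv_int.sum_le_tsum P fun d _ => hG0 d
  have h1 : ∀ x y : ℝ, 1 / (1 + (L * (x - y)) ^ 2) ≤ 3 * G (j x - j y) := by
    intro x y
    have a1 := Int.floor_le (L * x)
    have a2 := Int.lt_floor_add_one (L * x)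
    have a3 := Int.floor_le (L * y)
    have a4 := Int.lt_floor_add_one (L * y)
    simp only [hG, hj]
    push_cast
    set p : ℝ := (⌊L * x⌋ : ℝ) with hp
    set q : ℝ := (⌊L * y⌋ : ℝ) with hq
    rw [mul_one_div, div_le_div_iff₀ (by positivity) (by positivity)]
    have h2 : L * (x - y) = L * x - L * y := by ring
    rw [h2]
    set z := L * x - L * y with hz
    have h3 : |p - q| ≤ |z| + 1 := by
      have : p - q = z + ((p - L * x) - (q - L * y)) := by rw [hz]; ring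
      rw [this]
      refine (abs_add_le _ _).trans ?_
      have : |(p - L * x) - (q - L * y)| ≤ 1 := by
        rw [abs_le]; constructor <;> linarith
      linarith
    have h4 : (p - q) ^ 2 ≤ (|z| + 1) ^ 2 := by
      rw [← sq_abs (p - q)]
      exact pow_le_pow_left₀ (abs_nonneg _) h3 2
    have h5 : z ^ 2 = |z| ^ 2 := (sq_abs z).symm
    rw [h5]
    nlinarith [sq_nonneg (|z| - 1)]
  -- the numbers of elements of the cells
  set n : ℤ → ℝ := fun b => ((Γ.filter (fun x => j x = b)).card : ℝ) with hn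
  have hn0 : ∀ b, 0 ≤ n b := fun b => Nat.cast_nonneg _
  have h2 : ∑ x ∈ Γ, ∑ y ∈ Γ, G (j x - j y) =
      ∑ a ∈ Γ.image j, ∑ b ∈ Γ.image j, n a * n b * G (a - b) := by
    have e1 : ∀ a : ℤ, ∑ y ∈ Γ, G (a - j y) = ∑ b ∈ Γ.image j, n b * G (a - b) := by
      intro a
      rw [sum_comp (fun b => G (a - b)) j]
      refine sum_congr rfl fun b _ => ?_
      rw [nsmul_eq_mul]
    simp_rw [e1]
    rw [sum_comp (fun a => ∑ b ∈ Γ.image j, n b * G (a - b)) j]
    refine sum_congr rfl fun a _ => ?_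
    rw [nsmul_eq_mul, mul_sum]
    refine sum_congr rfl fun b _ => ?_
    ring
  have h3 : ∑ a ∈ Γ.image j, ∑ b ∈ Γ.image j, n a * n b * G (a - b) ≤
      S * ∑ a ∈ Γ.image j, n a ^ 2 := by
    have b1 : ∀ a ∈ Γ.image j, ∀ b ∈ Γ.image j, n a * n b * G (a - b) ≤
        n a ^ 2 / 2 * G (a - b) + n b ^ 2 / 2 * G (a - b) := by
      intro a _ b _
      have := hG0 (a - b)
      rw [← add_mul]
      refine mul_le_mul_of_nonneg_right ?_ this
      nlinarith [sq_nonneg (n a - n b)]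
    refine (sum_le_sum fun a ha => sum_le_sum fun b hb => b1 a ha b hb).trans ?_
    simp_rw [sum_add_distrib]
    have b2 : ∀ a : ℤ, ∑ b ∈ Γ.image j, G (a - b) ≤ S := by
      intro a
      have : ∑ b ∈ Γ.image j, G (a - b) = ∑ d ∈ (Γ.image j).image (fun b => a - b), G d := by
        symm
        apply sum_image
        intro x _ y _ h
        simpa using h
      rw [this]
      exact hGs _
    have b3 : ∀ b : ℤ, ∑ a ∈ Γ.image j, G (a - b) ≤ S := by
      intro b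
      have : ∑ a ∈ Γ.image j, G (a - b) = ∑ d ∈ (Γ.image j).image (fun a => a - b), G d := by
        symm
        apply sum_image
        intro x _ y _ h
        simpa using h
      rw [this]
      exact hGs _
    have b4 : ∑ a ∈ Γ.image j, ∑ b ∈ Γ.image j, n a ^ 2 / 2 * G (a - b) ≤
        ∑ a ∈ Γ.image j, n a ^ 2 / 2 * S := by
      refine sum_le_sum fun a _ => ?_
      rw [← mul_sum]
      exact mul_le_mul_of_nonneg_left (b2 a) (by positivity)
    have b5 : ∑ a ∈ Γ.image j, ∑ b ∈ Γ.image j, n b ^ 2 / 2 * G (a - b) ≤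
        ∑ b ∈ Γ.image j, n b ^ 2 / 2 * S := by
      rw [sum_comm]
      refine sum_le_sum fun b _ => ?_
      rw [← mul_sum]
      exact mul_le_mul_of_nonneg_left (b3 b) (by positivity)
    have b6 : S * ∑ a ∈ Γ.image j, n a ^ 2 =
        ∑ a ∈ Γ.image j, n a ^ 2 / 2 * S + ∑ a ∈ Γ.image j, n a ^ 2 / 2 * S := by
      rw [← sum_add_distrib, mul_sum]
      refine sum_congr rfl fun a _ => ?_
      ring
    rw [b6]
    exact add_le_add b4 b5
  calc ∑ x ∈ Γ, ∑ y ∈ Γ, 1 / (1 + (L * (x - y)) ^ 2) ≤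
      ∑ x ∈ Γ, ∑ y ∈ Γ, 3 * G (j x - j y) := sum_le_sum fun x _ => sum_le_sum fun y _ => h1 x y
    _ = 3 * ∑ x ∈ Γ, ∑ y ∈ Γ, G (j x - j y) := by
        rw [mul_sum]; refine sum_congr rfl fun x _ => ?_; rw [mul_sum]
    _ ≤ 3 * (S * ∑ a ∈ Γ.image j, n a ^ 2) := by rw [h2]; linarith
    _ = _ := by ring

/-- the sum of the squares of the numbers in the cells -/
lemma cells_sq {α : Type*} (Z : Finset α) (m : α → ℝ) (hm : ∀ s, 0 ≤ m s) (f : α → ℤ)
    (B : Finset ℤ) :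
    ∑ b ∈ B, (∑ s ∈ Z.filter (fun s => f s = b), m s) ^ 2 ≤
      ∑ s ∈ Z, ∑ s' ∈ Z, m s * m s' * (if f s = f s' then (1 : ℝ) else 0) := by
  classical
  have h1 : ∀ b : ℤ, (∑ s ∈ Z.filter (fun s => f s = b), m s) ^ 2 =
      ∑ s ∈ Z, ∑ s' ∈ Z, m s * m s' * ((if f s = b then (1 : ℝ) else 0) *
        (if f s' = b then (1 : ℝ) else 0)) := by
    intro b
    rw [sum_filter, sq, sum_mul_sum]
    refine sum_congr rfl fun s _ => sum_congr rfl fun s' _ => ?_
    by_cases h1 : f s = b <;> by_cases h2 : f s' = b <;> simp [h1, h2]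
  simp_rw [h1]
  rw [sum_comm]
  refine sum_le_sum fun s _ => ?_
  rw [sum_comm]
  refine sum_le_sum fun s' _ => ?_
  rw [← mul_sum]
  refine mul_le_mul_of_nonneg_left ?_ (mul_nonneg (hm s) (hm s'))
  by_cases h : f s = f s'
  · rw [if_pos h]
    have h2 : ∀ b ∈ B, ((if f s = b then (1 : ℝ) else 0) * (if f s' = b then (1 : ℝ) else 0)) =
        if f s = b then (1 : ℝ) else 0 := by
      intro b _
      by_cases h3 : f s = b
      · rw [if_pos h3, if_pos (h ▸ h3), mul_one]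
      · rw [if_neg h3, zero_mul]
    rw [sum_congr rfl h2, sum_ite_eq]
    exact ite01 _
  · rw [if_neg h]
    refine le_of_eq (sum_eq_zero fun b _ => ?_)
    by_cases h3 : f s = b
    · rw [if_pos h3, if_neg (fun h4 => h (h3.trans h4.symm)), mul_zero]
    · rw [if_neg h3, zero_mul]

lemma floor_near {L x y : ℝ} (hL : 0 < L) (h : ⌊L * x⌋ = ⌊L * y⌋) : |x - y| ≤ 1 / L := by
  have a1 := Int.floor_le (L * x)
  have a2 := Int.lt_floor_add_one (L * x)
  have a3 := Int.floor_le (L * y)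
  have a4 := Int.lt_floor_add_one (L * y)
  have a5 : (⌊L * x⌋ : ℝ) = ⌊L * y⌋ := by exact_mod_cast h
  rw [le_div_iff₀ hL]
  have a6 : |x - y| * L = |L * x - L * y| := by
    rw [← mul_sub, abs_mul, abs_of_pos hL]; ring
  rw [a6, abs_le]
  constructor <;> linarith

section fam

variable {ι : Type} [Fintype ι] (F : ι → ℂ → ℂ) (sm : Finset ℝ)

open Classical in
/-- all the ordinates of zeros of the family in `(1, T]`, and the points of the finite set `sm` -/
noncomputable def Gam (T : ℝ) : Finset ℝ :=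
  (univ.biUnion fun i => (Zf (F i) 1 T).image Complex.im) ∪ sm

open Classical in
/-- the weights: multiplicities -/
noncomputable def wgt (T x : ℝ) : ℝ :=
  (∑ i, ∑ s ∈ Zf (F i) 1 T, if s.im = x then (mult (F i) s : ℝ) else 0) +
    if x ∈ sm then 1 else 0

variable {F sm}

lemma mem_Gam {T x : ℝ} : x ∈ Gam F sm T ↔ (∃ i, ∃ s ∈ Zf (F i) 1 T, s.im = x) ∨ x ∈ sm := by
  classical
  unfold Gam
  rw [mem_union, mem_biUnion]
  constructor
  · rintro (⟨i, _, h⟩ | h)
    · rw [mem_image] at h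
      exact Or.inl ⟨i, h⟩
    · exact Or.inr h
  · rintro (⟨i, h⟩ | h)
    · exact Or.inl ⟨i, mem_univ _, mem_image.2 h⟩
    · exact Or.inr h

lemma wgt_sum {M : Type*} [AddCommGroup M] [Module ℝ M] (T : ℝ) (g : ℝ → M) :
    ∑ x ∈ Gam F sm T, wgt F sm T x • g x =
      (∑ i, ∑ s ∈ Zf (F i) 1 T, (mult (F i) s : ℝ) • g s.im) + ∑ x ∈ sm, g x := by
  classical
  unfold wgt
  simp_rw [add_smul]
  rw [sum_add_distrib]
  congr 1
  · simp_rw [sum_smul]
    rw [sum_comm]
    refine sum_congr rfl fun i _ => ?_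
    rw [sum_comm]
    refine sum_congr rfl fun s hs => ?_
    simp_rw [ite_smul, zero_smul]
    rw [sum_ite_eq, if_pos]
    exact mem_Gam.2 (Or.inl ⟨i, s, hs, rfl⟩)
  · simp_rw [ite_smul, one_smul, zero_smul]
    rw [← sum_filter]
    refine sum_congr ?_ fun _ _ => rfl
    ext x
    rw [mem_filter]
    exact ⟨fun h => h.2, fun h => ⟨mem_Gam.2 (Or.inr h), h⟩⟩

lemma wgt_one (hF : ∀ i, GoodL (F i)) (T : ℝ) : ∀ x ∈ Gam F sm T, 1 ≤ wgt F sm T x := by
  classical
  intro x hx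
  unfold wgt
  have h0 : ∀ i, 0 ≤ ∑ s ∈ Zf (F i) 1 T, if s.im = x then (mult (F i) s : ℝ) else 0 := fun i =>
    sum_nonneg fun s _ => by split_ifs <;> positivity
  have h00 : (0 : ℝ) ≤ if x ∈ sm then 1 else 0 := ite00 _
  rcases mem_Gam.1 hx with ⟨i, s, hs, hsx⟩ | h
  · have h1 : (1 : ℝ) ≤ ∑ s ∈ Zf (F i) 1 T, if s.im = x then (mult (F i) s : ℝ) else 0 := by
      have h2 : (1 : ℝ) ≤ if s.im = x then (mult (F i) s : ℝ) else 0 := by
        rw [if_pos hsx]
        have h3 := (mem_Zf (hF i) le_rfl).1 hs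
        have h4 : 1 ≤ mult (F i) s :=
          H370.Loc.mult_pos' (hF i) (by linarith [h3.2.2.1]) h3.2.2.2.2
        exact_mod_cast h4
      refine h2.trans ?_
      exact single_le_sum (f := fun s => if s.im = x then (mult (F i) s : ℝ) else 0)
        (fun s _ => by split_ifs <;> positivity) hs
    have h2 := single_le_sum (f := fun i => ∑ s ∈ Zf (F i) 1 T,
      if s.im = x then (mult (F i) s : ℝ) else 0) (fun i _ => h0 i) (mem_univ i)
    linarith
  · rw [if_pos h]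
    have h2 : 0 ≤ ∑ i, ∑ s ∈ Zf (F i) 1 T, (if s.im = x then (mult (F i) s : ℝ) else 0) :=
      sum_nonneg fun i _ => h0 i
    linarith

lemma TL_ge {T : ℝ} (hT : 100 ≤ T) : T ≤ T * Real.log T := by
  have h1 : 1 ≤ Real.log T := by
    rw [Real.le_log_iff_exp_le (by linarith)]
    have := Real.exp_one_lt_d9
    linarith
  nlinarith

theorem fam1 (hF : ∀ i, GoodL (F i)) : ∃ C : ℝ, 1 ≤ C ∧ ∀ T : ℝ, 100 ≤ T →
    ∑ x ∈ Gam F sm T, wgt F sm T x ≤ C * (T * Real.log T) := by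
  classical
  choose C hC h using fun i => cntF (hF i)
  refine ⟨∑ i, C i + sm.card + 1, ?_, fun T hT => ?_⟩
  · have : 0 ≤ ∑ i, C i := sum_nonneg fun i _ => by linarith [hC i]
    have : (0 : ℝ) ≤ sm.card := Nat.cast_nonneg _
    linarith
  have h1 := wgt_sum (F := F) (sm := sm) T (fun _ => (1 : ℝ))
  simp only [smul_eq_mul, mul_one, sum_const, nsmul_eq_mul] at h1
  rw [h1]
  have h2 : ∑ i, ∑ s ∈ Zf (F i) 1 T, (mult (F i) s : ℝ) ≤ ∑ i, C i * (T * Real.log T) :=
    sum_le_sum fun i _ => h i T (by linarith)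
  rw [← sum_mul] at h2
  have h3 := TL_ge hT
  have h4 : (sm.card : ℝ) ≤ sm.card * (T * Real.log T) := by
    have : (0 : ℝ) ≤ sm.card := Nat.cast_nonneg _
    nlinarith
  nlinarith

theorem fam2 (hF : ∀ i, GoodL (F i)) (hd : ∀ i, Dens (F i)) (ε : ℝ) (hε : 0 < ε) :
    ∃ e C T2 : ℝ, 0 < e ∧ 0 < C ∧ ∀ T : ℝ, T2 ≤ T → ∀ v : ℝ, C / T ≤ |v| → |v| ≤ e * Real.log T →
      ‖∑ x ∈ Gam F sm T, (wgt F sm T x : ℂ) * cexp (I * ((v * x : ℝ) : ℂ))‖ ≤
        ε * (T * Real.log T) := by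
  classical
  set k : ℝ := (Fintype.card ι : ℝ) with hk
  have hk0 : 0 ≤ k := Nat.cast_nonneg _
  choose e C T0 he hC hT0 h using fun i => z2F (hF i) (hd i) (ε / (2 * (k + 1))) (by positivity)
  refine ⟨(∑ i, (e i)⁻¹ + 1)⁻¹, ∑ i, C i + 1, ∑ i, T0 i + 100 + 2 * sm.card / ε, ?_, ?_, ?_⟩
  · have : 0 ≤ ∑ i, (e i)⁻¹ := sum_nonneg fun i _ => inv_nonneg.2 (he i).le
    positivity
  · have : 0 ≤ ∑ i, C i := sum_nonneg fun i _ => (hC i).le
    positivity
  intro T hT v hv1 hv2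
  have hTs : 0 ≤ ∑ i, T0 i := sum_nonneg fun i _ => by linarith [hT0 i]
  have hsm : 0 ≤ 2 * sm.card / ε := by positivity
  have hT100 : 100 ≤ T := by linarith
  have hT0' : 0 < T := by linarith
  have hL : 0 ≤ Real.log T := Real.log_nonneg (by linarith)
  have hTL := TL_ge hT100
  have h1 := wgt_sum (F := F) (sm := sm) T (fun x => cexp (I * ((v * x : ℝ) : ℂ)))
  have h2 : ∑ x ∈ Gam F sm T, (wgt F sm T x : ℂ) * cexp (I * ((v * x : ℝ) : ℂ)) =
      ∑ i, FxF (F i) T v + ∑ x ∈ sm, cexp (I * ((v * x : ℝ) : ℂ)) := by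
    rw [show ∑ x ∈ Gam F sm T, (wgt F sm T x : ℂ) * cexp (I * ((v * x : ℝ) : ℂ)) =
      ∑ x ∈ Gam F sm T, wgt F sm T x • cexp (I * ((v * x : ℝ) : ℂ)) from
        sum_congr rfl fun x _ => (Complex.real_smul).symm, h1]
    congr 1
  rw [h2]
  refine (norm_add_le _ _).trans ?_
  have h3 : ‖∑ i, FxF (F i) T v‖ ≤ ε / 2 * (T * Real.log T) := by
    refine (norm_sum_le _ _).trans ?_
    have h4 : ∀ i ∈ (univ : Finset ι), ‖FxF (F i) T v‖ ≤ ε / (2 * (k + 1)) * (T * Real.log T) := by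
      intro i _
      refine h i T ?_ v ?_ ?_
      · have := single_le_sum (f := T0) (fun i _ => by linarith [hT0 i]) (mem_univ i)
        linarith
      · refine le_trans ?_ hv1
        refine div_le_div_of_nonneg_right ?_ hT0'.le
        have := single_le_sum (f := C) (fun i _ => (hC i).le) (mem_univ i)
        linarith
      · refine hv2.trans (mul_le_mul_of_nonneg_right ?_ hL)
        have h5 := single_le_sum (f := fun i => (e i)⁻¹) (fun i _ => inv_nonneg.2 (he i).le)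
          (mem_univ i)
        rw [inv_le_comm₀ (by have := inv_pos.2 (he i); linarith) (he i)]
        linarith
    refine (sum_le_sum h4).trans ?_
    rw [sum_const, nsmul_eq_mul, card_univ, ← hk]
    have h6 : k * (ε / (2 * (k + 1))) ≤ ε / 2 := by
      rw [mul_div_assoc', div_le_div_iff₀ (by positivity) (by norm_num)]
      nlinarith
    calc k * (ε / (2 * (k + 1)) * (T * Real.log T)) = k * (ε / (2 * (k + 1))) *
        (T * Real.log T) := by ring
      _ ≤ _ := mul_le_mul_of_nonneg_right h6 (by positivity)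
  have h4 : ‖∑ x ∈ sm, cexp (I * ((v * x : ℝ) : ℂ))‖ ≤ ε / 2 * (T * Real.log T) := by
    refine (norm_sum_le _ _).trans ?_
    rw [sum_congr rfl fun x _ => norm_ex (v * x)]
    rw [sum_const, nsmul_eq_mul, mul_one]
    have h5 : 2 * sm.card / ε ≤ T := by linarith
    rw [div_le_iff₀ hε] at h5
    nlinarith
  linarith

theorem fam3 (hF : ∀ i, GoodL (F i)) (hp : ∀ i, Prs (F i)) :
    ∃ P T0 : ℝ, 0 < P ∧ 100 ≤ T0 ∧ ∀ T : ℝ, T0 ≤ T →
      ∑ x ∈ Gam F sm T, ∑ y ∈ Gam F sm T, 1 / (1 + (Real.log T * (x - y)) ^ 2) ≤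
        P * (T * Real.log T) := by
  classical
  choose P T0 hP hT0 h using fun i => q_all (hF i) (hp i)
  set S := ∑' d : ℤ, 1 / (1 + (d : ℝ) ^ 2) with hS
  have hS0 : 0 ≤ S := tsum_nonneg fun d => by positivity
  set k : ℝ := (Fintype.card ι : ℝ) with hk
  have hk0 : 0 ≤ k := Nat.cast_nonneg _
  have hPs : 0 ≤ ∑ i, P i := sum_nonneg fun i _ => hP i
  refine ⟨3 * S * ((k + 1) * (∑ i, P i + sm.card ^ 2)) + 1, ∑ i, T0 i + 100, by positivity, ?_, ?_⟩
  · have : 0 ≤ ∑ i, T0 i := sum_nonneg fun i _ => by linarith [hT0 i]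
    linarith
  intro T hT
  have hTs : 0 ≤ ∑ i, T0 i := sum_nonneg fun i _ => by linarith [hT0 i]
  have hT100 : 100 ≤ T := by linarith
  have hT0' : 0 < T := by linarith
  have hL : 0 < Real.log T := Real.log_pos (by linarith)
  have hTL := TL_ge hT100
  set L := Real.log T with hLdef
  refine (cell0 (Gam F sm T) L).trans ?_
  set f : ℝ → ℤ := fun x => ⌊L * x⌋ with hf
  set Bs := (Gam F sm T).image f with hBs
  -- the numbers in the cells
  set N : ι → ℤ → ℝ := fun i b => ∑ s ∈ (Zf (F i) 1 T).filter (fun s => f s.im = b),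
    (mult (F i) s : ℝ) with hN
  set σ : ℤ → ℝ := fun b => ∑ x ∈ sm.filter (fun x => f x = b), (1 : ℝ) with hσ
  have hN0 : ∀ i b, 0 ≤ N i b := fun i b => sum_nonneg fun s _ => Nat.cast_nonneg _
  have hσ0 : ∀ b, 0 ≤ σ b := fun b => sum_nonneg fun s _ => zero_le_one
  have hn : ∀ b : ℤ, (((Gam F sm T).filter (fun x => f x = b)).card : ℝ) ≤ ∑ i, N i b + σ b := by
    intro b
    have h1 : (((Gam F sm T).filter (fun x => f x = b)).card : ℝ) ≤
        ∑ x ∈ Gam F sm T, wgt F sm T x • (if f x = b then (1 : ℝ) else 0) := by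
      rw [← sum_boole]
      refine sum_le_sum fun x hx => ?_
      rw [smul_eq_mul]
      have h2 := wgt_one hF T x hx
      have h3 := ite00 (f x = b)
      exact le_mul_of_one_le_left h3 h2
    rw [wgt_sum] at h1
    refine h1.trans (le_of_eq ?_)
    congr 1
    · refine sum_congr rfl fun i _ => ?_
      simp only [hN]
      rw [sum_filter]
      refine sum_congr rfl fun s _ => ?_
      rw [smul_eq_mul]
      split_ifs <;> simp
    · simp only [hσ]
      rw [sum_filter]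
  have hsq : ∀ b : ℤ, (((Gam F sm T).filter (fun x => f x = b)).card : ℝ) ^ 2 ≤
      (k + 1) * (∑ i, N i b ^ 2 + σ b ^ 2) := by
    intro b
    have h1 : (((Gam F sm T).filter (fun x => f x = b)).card : ℝ) ^ 2 ≤
        (∑ i, N i b + σ b) ^ 2 := pow_le_pow_left₀ (Nat.cast_nonneg _) (hn b) 2
    refine h1.trans ?_
    -- Cauchy-Schwarz over `Option ι`
    have h2 := sq_sum_le_card_mul_sum_sq (s := (univ : Finset (Option ι)))
      (f := fun o => Option.elim o (σ b) (fun i => N i b))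
    rw [Fintype.sum_option, Fintype.sum_option, card_univ, Fintype.card_option] at h2
    simp only [Option.elim_none, Option.elim_some] at h2
    push_cast at h2
    rw [add_comm (∑ i, N i b), add_comm (∑ i, N i b ^ 2)]
    exact h2
  have hNi : ∀ i, ∑ b ∈ Bs, N i b ^ 2 ≤ P i * (T * L) := by
    intro i
    refine (cells_sq (Zf (F i) 1 T) (fun s => (mult (F i) s : ℝ)) (fun s => Nat.cast_nonneg _)
      (fun s => f s.im) Bs).trans ?_
    refine le_trans ?_ (h i T (by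
      have := single_le_sum (f := T0) (fun i _ => by linarith [hT0 i]) (mem_univ i)
      linarith))
    unfold QpF
    refine sum_le_sum fun s _ => sum_le_sum fun s' _ => ?_
    refine mul_le_mul_of_nonneg_left ?_ (mul_nonneg (Nat.cast_nonneg _) (Nat.cast_nonneg _))
    by_cases h1 : f s.im = f s'.im
    · rw [if_pos h1, if_pos (floor_near hL h1)]
    · rw [if_neg h1]; exact ite00 _
  have hσs : ∑ b ∈ Bs, σ b ^ 2 ≤ (sm.card : ℝ) ^ 2 * (T * L) := by
    refine (cells_sq sm (fun _ => (1 : ℝ)) (fun _ => zero_le_one) f Bs).trans ?_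
    have h1 : ∑ s ∈ sm, ∑ s' ∈ sm, (1 : ℝ) * 1 * (if f s = f s' then (1 : ℝ) else 0) ≤
        ∑ s ∈ sm, ∑ s' ∈ sm, (1 : ℝ) :=
      sum_le_sum fun s _ => sum_le_sum fun s' _ => by rw [one_mul, one_mul]; exact ite01 _
    refine h1.trans ?_
    simp only [sum_const, nsmul_eq_mul, mul_one]
    have h2 : (0 : ℝ) ≤ (sm.card : ℝ) ^ 2 := by positivity
    nlinarith
  have htot : ∑ b ∈ Bs, (((Gam F sm T).filter (fun x => f x = b)).card : ℝ) ^ 2 ≤
      (k + 1) * (∑ i, P i + sm.card ^ 2) * (T * L) := by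
    refine (sum_le_sum fun b _ => hsq b).trans ?_
    rw [← mul_sum, sum_add_distrib, sum_comm]
    have h1 : ∑ i, ∑ b ∈ Bs, N i b ^ 2 ≤ ∑ i, P i * (T * L) := sum_le_sum fun i _ => hNi i
    rw [← sum_mul] at h1
    calc (k + 1) * (∑ i, ∑ b ∈ Bs, N i b ^ 2 + ∑ b ∈ Bs, σ b ^ 2) ≤
        (k + 1) * ((∑ i, P i) * (T * L) + (sm.card : ℝ) ^ 2 * (T * L)) := by gcongr
      _ = _ := by ring
  have h9 : 0 ≤ T * L := by positivity
  calc 3 * S * ∑ b ∈ Bs, (((Gam F sm T).filter (fun x => f x = b)).card : ℝ) ^ 2 ≤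
      3 * S * ((k + 1) * (∑ i, P i + sm.card ^ 2) * (T * L)) := by gcongr
    _ = (3 * S * ((k + 1) * (∑ i, P i + sm.card ^ 2))) * (T * L) := by ring
    _ ≤ _ := by
        refine mul_le_mul_of_nonneg_right ?_ h9
        linarith

/-- long affine relations between the ordinates of the zeros of a finite family -/
theorem fam_main (hF : ∀ i, GoodL (F i)) (hd : ∀ i, Dens (F i)) (hp : ∀ i, Prs (F i))
    (η : ℝ) (hη : 0 < η) : ∃ K T₀ : ℝ, 0 < K ∧ ∀ T : ℝ, T₀ ≤ T →
      ∀ (n : ℕ) (c : Fin n → ℝ) (a : ℝ) (A : Fin n → Finset ℝ) (J : Finset (Fin n)),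
      (∀ k, c k ≠ 0) →
      (∀ i ∈ J, ∀ j ∈ J, i ≠ j → ∀ k, K * |c k| ≤ T * Real.log T * |c i - c j|) →
      (∀ k, A k ⊆ Gam F sm T) → (∀ k, η * (T * Real.log T) ≤ (A k).card) →
      2 ≤ J.card → ∀ i j, i ≠ j →
      (((Fintype.piFinset A).filter (fun x : Fin n → ℝ => |∑ k, c k * x k - a| ≤
        min |c i| |c j| / (J.card * Real.log T))).card : ℝ) ≤
      K / J.card * (∏ k, ((A k).card : ℝ)) / (T * Real.log T) := by
  obtain ⟨C1, hC1, h1⟩ := fam1 (sm := sm) hF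
  obtain ⟨P, T3, hP, hT3, h3⟩ := fam3 (sm := sm) hF hp
  exact abs_main (Gam F sm) (wgt F sm) C1 P T3 hC1 hP (fun T _ => wgt_one hF T)
    (fun T hT => h1 T (hT3.trans hT)) (fun ε hε => fam2 hF hd ε hε) h3 η hη

end fam

end Pool.Agent.W2helper80.UL
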