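import Pool.Agent.W2helper80.UL.Sup
import Pool.Agent.TH801.LR.Full

/-! All the zeros with ordinates in `(1, T]`: number, exponential sums and close pairs. -/

set_option autoImplicit false

open Finset MeasureTheory Complex
open scoped ComplexConjugate

namespace Pool.Agent.W2helper80.UL

open H370
open Pool.Agent.TH801.LR (recur norm_ex sum_inv_int)

variable {F : ℂ → ℂ}

/-- splitting at `X` -/
lemma sum_Zf (hF : GoodL F) {M : Type*} [AddCommMonoid M] {X B : ℝ} (hX : 1 ≤ X) (hB : X ≤ B)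
    (g : ℂ → M) :
    ∑ s ∈ Zf F 1 B, g s = ∑ s ∈ Zf F 1 X, g s + ∑ s ∈ Zf F X B, g s := by
  classical
  have hd : Disjoint (Zf F 1 X) (Zf F X B) := by
    rw [disjoint_left]
    intro s h1 h2
    have h3 := ((mem_Zf hF le_rfl).1 h1).2.2.2.1
    have h4 := ((mem_Zf hF hX).1 h2).2.2.1
    linarith
  have hu : Zf F 1 B = Zf F 1 X ∪ Zf F X B := by
    ext s
    rw [mem_union, mem_Zf hF le_rfl, mem_Zf hF le_rfl, mem_Zf hF hX]
    constructor
    · rintro ⟨h1, h2, h3, h4, h5⟩
      rcases le_or_gt s.im X with h | h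
      · left; exact ⟨h1, h2, h3, h, h5⟩
      · right; exact ⟨h1, h2, h, h4, h5⟩
    · rintro (⟨h1, h2, h3, h4, h5⟩ | ⟨h1, h2, h3, h4, h5⟩)
      · exact ⟨h1, h2, h3, h4.trans hB, h5⟩
      · exact ⟨h1, h2, by linarith, h4, h5⟩
  rw [hu, sum_union hd]

/-- number of zeros -/
theorem cntF (hF : GoodL F) : ∃ C : ℝ, 1 ≤ C ∧ ∀ T : ℝ, 4 ≤ T →
    ∑ s ∈ Zf F 1 T, (mult F s : ℝ) ≤ C * (T * Real.log T) := by
  obtain ⟨C, hC, hNN⟩ := NN_crude hF
  set A := ∑ s ∈ Zf F 1 6, (mult F s : ℝ) with hA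
  have hA0 : 0 ≤ A := sum_nonneg fun x _ => Nat.cast_nonneg _
  refine ⟨A + 2 * C + 1, by linarith, ?_⟩
  have h1 := recur (fun T => ∑ s ∈ Zf F 1 T, (mult F s : ℝ)) 4 A C (by norm_num) hA0 hC.le ?_ ?_
  · intro T hT
    refine (h1 T hT).trans ?_
    have : 0 ≤ T * Real.log T := by
      have := Real.log_nonneg (show (1 : ℝ) ≤ T by linarith)
      have : 0 ≤ T := by linarith
      positivity
    nlinarith
  · intro T hT1 hT2
    show ∑ s ∈ Zf F 1 T, (mult F s : ℝ) ≤ A
    have h2 := sum_Zf hF (X := T) (B := 6) (by linarith) (by linarith) (fun s => (mult F s : ℝ))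
    have h3 : 0 ≤ ∑ s ∈ Zf F T 6, (mult F s : ℝ) := sum_nonneg fun x _ => Nat.cast_nonneg _
    linarith
  · intro X hX
    show ∑ s ∈ Zf F 1 (3 / 2 * X), (mult F s : ℝ) ≤ ∑ s ∈ Zf F 1 X, (mult F s : ℝ) +
      C * (X * Real.log X)
    rw [sum_Zf hF (X := X) (B := 3 / 2 * X) (by linarith) (by linarith)]
    have h3 := hNN X hX X (3 / 2 * X) le_rfl (by linarith)
    rw [NN_eq hF (by linarith), Nat.cast_sum] at h3
    linarith

/-- the exponential sum with multiplicities -/
noncomputable def FxF (F : ℂ → ℂ) (T v : ℝ) : ℂ :=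
  ∑ s ∈ Zf F 1 T, (mult F s : ℂ) * cexp (I * ((v * s.im : ℝ) : ℂ))

lemma FxF_le (T v : ℝ) : ‖FxF F T v‖ ≤ ∑ s ∈ Zf F 1 T, (mult F s : ℝ) := by
  unfold FxF
  refine (norm_sum_le _ _).trans (sum_le_sum fun x _ => ?_)
  rw [norm_mul, norm_ex, mul_one, Complex.norm_natCast]

lemma FxF_neg (T v : ℝ) : ‖FxF F T (-v)‖ = ‖FxF F T v‖ := by
  have h : FxF F T (-v) = conj (FxF F T v) := by
    unfold FxF
    rw [map_sum]
    refine sum_congr rfl fun x _ => ?_
    rw [map_mul, Complex.conj_natCast, ← Complex.exp_conj, map_mul, Complex.conj_I,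
      Complex.conj_ofReal]
    congr 2
    push_cast; ring
  rw [h, RCLike.norm_conj]

/-- the exponential sum is small at all frequencies between `C/T` and `e log T` -/
theorem z2F (hF : GoodL F) (hd : Dens F) (ε : ℝ) (hε : 0 < ε) :
    ∃ e C' T0 : ℝ, 0 < e ∧ 0 < C' ∧ 4 ≤ T0 ∧ ∀ T : ℝ, T0 ≤ T → ∀ v : ℝ, C' / T ≤ |v| →
      |v| ≤ e * Real.log T → ‖FxF F T v‖ ≤ ε * (T * Real.log T) := by
  obtain ⟨C, hC, hz1⟩ := cntF hF
  obtain ⟨K, hK⟩ := exists_pow_lt_of_lt_one (show 0 < ε / (2 * C) by positivity)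
    (show (2 / 3 : ℝ) < 1 by norm_num)
  set ε1 := ε / (2 * (K + 1)) with hε1
  have hε10 : 0 < ε1 := by positivity
  obtain ⟨e1, C4, T1, he1, hC4, hT1, hsup⟩ := sup_blk hF hd ε1 hε10
  set P : ℝ := (3 / 2) ^ K with hP
  have hP1 : 1 ≤ P := one_le_pow₀ (by norm_num)
  refine ⟨2 / 3 * e1, C4 * P, max (T1 * P) (max (4 * P) (P ^ 3)), by positivity, by positivity,
    ?_, ?_⟩
  · have : 4 ≤ 4 * P := by linarith
    exact this.trans ((le_max_left _ _).trans (le_max_right _ _))
  intro T hT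
  have hTa : T1 * P ≤ T := (le_max_left _ _).trans hT
  have hTb : 4 * P ≤ T := (le_max_left _ _).trans ((le_max_right _ _).trans hT)
  have hTc : P ^ 3 ≤ T := (le_max_right _ _).trans ((le_max_right _ _).trans hT)
  have hT4 : 4 ≤ T := by linarith
  have hT0 : 0 < T := by linarith
  have hLT : 0 < Real.log T := Real.log_pos (by linarith)
  -- nonnegative frequencies
  have hpos : ∀ v : ℝ, C4 * P / T ≤ v → v ≤ 2 / 3 * e1 * Real.log T →
      ‖FxF F T v‖ ≤ ε * (T * Real.log T) := by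
    intro v hv1 hv2
    have key : ∀ k : ℕ, k ≤ K → ‖FxF F T v‖ ≤ ‖FxF F (T * (2 / 3) ^ k) v‖ +
        k * (ε1 * (T * Real.log T)) := by
      intro k
      induction k with
      | zero => intro _; simp
      | succ k ih =>
        intro hk
        have h1 := ih (by omega)
        set X := T * (2 / 3) ^ (k + 1) with hX
        have hXP : T / P ≤ X := by
          rw [hX, div_le_iff₀ (by linarith), mul_assoc]
          have h2 : (1 : ℝ) ≤ (2 / 3) ^ (k + 1) * P := by
            have h3 : ((2 : ℝ) / 3) ^ K ≤ (2 / 3) ^ (k + 1) :=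
              pow_le_pow_of_le_one (by norm_num) (by norm_num) hk
            have h4 : ((2 : ℝ) / 3) ^ K * P = 1 := by
              rw [hP, ← mul_pow]; norm_num
            calc (1 : ℝ) = (2 / 3) ^ K * P := h4.symm
              _ ≤ _ := by gcongr
          nlinarith
        have hX1 : T1 ≤ X := by
          refine le_trans ?_ hXP
          rw [le_div_iff₀ (by linarith)]; exact hTa
        have hX100 : 100 ≤ X := hT1.trans hX1
        have hXT : X ≤ T := by
          rw [hX]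
          have : ((2 : ℝ) / 3) ^ (k + 1) ≤ 1 := pow_le_one₀ (by norm_num) (by norm_num)
          nlinarith
        have hlX : Real.log X ≤ Real.log T := Real.log_le_log (by linarith) hXT
        have hlX2 : 2 / 3 * Real.log T ≤ Real.log X := by
          have h2 : Real.log (T / P) ≤ Real.log X := Real.log_le_log (by positivity) hXP
          rw [Real.log_div hT0.ne' (by positivity)] at h2
          have h3 : Real.log (P ^ 3) ≤ Real.log T := Real.log_le_log (by positivity) hTc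
          rw [Real.log_pow] at h3
          push_cast at h3
          linarith
        have hv3 : C4 / X ≤ v := by
          refine le_trans ?_ hv1
          rw [div_le_div_iff₀ (by linarith) hT0]
          have h5 : T ≤ P * X := by
            rw [div_le_iff₀ (by linarith)] at hXP; linarith
          calc C4 * T ≤ C4 * (P * X) := by gcongr
            _ = _ := by ring
        have hv4 : v ≤ e1 * Real.log X := by
          refine hv2.trans ?_
          calc 2 / 3 * e1 * Real.log T = e1 * (2 / 3 * Real.log T) := by ring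
            _ ≤ _ := by gcongr
        have h2 := hsup X hX1 v hv3 hv4
        have h3 : T * (2 / 3) ^ k = 3 / 2 * X := by
          rw [hX, pow_succ]; ring
        have h3' : FxF F (3 / 2 * X) v = FxF F X v + ∑ s ∈ Zf F X (3 / 2 * X),
            (mult F s : ℂ) * cexp (I * ((v * s.im : ℝ) : ℂ)) := by
          unfold FxF
          exact sum_Zf hF (by linarith) (by linarith) _
        rw [h3, h3'] at h1
        have h4 := norm_add_le (FxF F X v) (∑ s ∈ Zf F X (3 / 2 * X),
          (mult F s : ℂ) * cexp (I * ((v * s.im : ℝ) : ℂ)))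
        have h5 : ε1 * (X * Real.log X) ≤ ε1 * (T * Real.log T) := by
          have : X * Real.log X ≤ T * Real.log T :=
            mul_le_mul hXT hlX (Real.log_nonneg (by linarith)) hT0.le
          gcongr
        push_cast
        linarith
    have h1 := key K le_rfl
    have h2 : ‖FxF F (T * (2 / 3) ^ K) v‖ ≤ ε / 2 * (T * Real.log T) := by
      set X := T * (2 / 3) ^ K with hX
      have h4 : ((2 : ℝ) / 3) ^ K * P = 1 := by
        rw [hP, ← mul_pow]; norm_num
      have hX4 : 4 ≤ X := by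
        have h5 : 4 * P * (2 / 3) ^ K ≤ T * (2 / 3) ^ K := by gcongr
        rw [hX]
        nlinarith
      have hXT : X ≤ T := by
        rw [hX]
        have : ((2 : ℝ) / 3) ^ K ≤ 1 := pow_le_one₀ (by norm_num) (by norm_num)
        nlinarith
      refine (FxF_le X v).trans ((hz1 X hX4).trans ?_)
      have hlX : Real.log X ≤ Real.log T := Real.log_le_log (by linarith) hXT
      have h6 : C * (2 / 3 : ℝ) ^ K ≤ ε / 2 := by
        rw [lt_div_iff₀ (by positivity)] at hK
        linarith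
      calc C * (X * Real.log X) ≤ C * (X * Real.log T) := by
            have : 0 ≤ X := by linarith
            gcongr
        _ = C * (2 / 3) ^ K * (T * Real.log T) := by rw [hX]; ring
        _ ≤ _ := by gcongr
    have h3 : (K : ℝ) * (ε1 * (T * Real.log T)) ≤ ε / 2 * (T * Real.log T) := by
      have h4 : (K : ℝ) * ε1 ≤ ε / 2 := by
        rw [hε1, mul_div_assoc', div_le_div_iff₀ (by positivity) (by norm_num)]
        nlinarith
      calc (K : ℝ) * (ε1 * (T * Real.log T)) = K * ε1 * (T * Real.log T) := by ring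
        _ ≤ _ := by gcongr
    linarith
  intro v hv1 hv2
  rcases le_or_gt 0 v with h | h
  · rw [abs_of_nonneg h] at hv1 hv2
    exact hpos v hv1 hv2
  · rw [abs_of_neg h] at hv1 hv2
    have := hpos (-v) hv1 hv2
    rwa [FxF_neg] at this

/-- the number of close pairs is at most a multiple of the number of zeros -/
def Prs (F : ℂ → ℂ) : Prop := ∃ C T0 : ℝ, 0 ≤ C ∧ ∀ X : ℝ, T0 ≤ X →
  ∑ s ∈ Zf F X (3 / 2 * X), ∑ s' ∈ Zf F X (3 / 2 * X),
    (mult F s : ℝ) * (mult F s' : ℝ) * (if |s.im - s'.im| ≤ 1 / Real.log X then (1 : ℝ) else 0) ≤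
    C * (X * Real.log X)

/-- weighted number of close pairs -/
noncomputable def QpF (F : ℂ → ℂ) (T : ℝ) : ℝ := ∑ s ∈ Zf F 1 T, ∑ s' ∈ Zf F 1 T,
  (mult F s : ℝ) * (mult F s' : ℝ) * (if |s.im - s'.im| ≤ 1 / Real.log T then (1 : ℝ) else 0)

lemma ite01 (p : Prop) [Decidable p] : (if p then (1 : ℝ) else 0) ≤ 1 := by
  split_ifs <;> norm_num

lemma ite00 (p : Prop) [Decidable p] : 0 ≤ (if p then (1 : ℝ) else 0) := by
  split_ifs <;> norm_num

theorem q_step (hF : GoodL F) (hp : Prs F) : ∃ C T0 : ℝ, 0 < C ∧ 100 ≤ T0 ∧ ∀ X : ℝ, T0 ≤ X →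
    QpF F (3 / 2 * X) ≤ QpF F X + C * (X * Real.log X) := by
  classical
  obtain ⟨C1, T1, hC1, hblk⟩ := hp
  obtain ⟨C2, hC2, hnear⟩ := zcount hF
  refine ⟨C1 + 2 * C2 ^ 2, max 100 T1, by positivity, le_max_left _ _, fun X hX => ?_⟩
  have hX100 : 100 ≤ X := (le_max_left _ _).trans hX
  have hX1 : 1 ≤ X := by linarith
  have hL : 1 ≤ Real.log X := by
    rw [Real.le_log_iff_exp_le (by linarith)]
    have := Real.exp_one_lt_d9
    linarith
  have hLX : Real.log X ≤ X := (Real.log_le_sub_one_of_pos (by linarith)).trans (by linarith)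
  set k : ℂ → ℂ → ℝ := fun x y => (mult F x : ℝ) * (mult F y : ℝ) *
    (if |x.im - y.im| ≤ 1 / Real.log X then (1 : ℝ) else 0) with hk
  have hk0 : ∀ x y, 0 ≤ k x y := fun x y =>
    mul_nonneg (mul_nonneg (Nat.cast_nonneg _) (Nat.cast_nonneg _)) (ite00 _)
  set B := 3 / 2 * X with hB
  have h1 : QpF F B ≤ ∑ x ∈ Zf F 1 B, ∑ y ∈ Zf F 1 B, k x y := by
    unfold QpF
    refine sum_le_sum fun x _ => sum_le_sum fun y _ => ?_
    refine mul_le_mul_of_nonneg_left ?_ (mul_nonneg (Nat.cast_nonneg _) (Nat.cast_nonneg _))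
    by_cases h : |x.im - y.im| ≤ 1 / Real.log B
    · rw [if_pos h, if_pos]
      refine h.trans ?_
      apply one_div_le_one_div_of_le (by linarith)
      exact Real.log_le_log (by linarith) (by linarith)
    · rw [if_neg h]; exact ite00 _
  have h2 : ∑ x ∈ Zf F 1 B, ∑ y ∈ Zf F 1 B, k x y =
      (∑ x ∈ Zf F 1 X, ∑ y ∈ Zf F 1 X, k x y + ∑ x ∈ Zf F 1 X, ∑ y ∈ Zf F X B, k x y) +
      (∑ x ∈ Zf F X B, ∑ y ∈ Zf F 1 X, k x y + ∑ x ∈ Zf F X B, ∑ y ∈ Zf F X B, k x y) := by
    rw [sum_Zf hF hX1 (by linarith : X ≤ B)]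
    congr 1
    · rw [← sum_add_distrib]
      refine sum_congr rfl fun x _ => ?_
      exact sum_Zf hF hX1 (by linarith) _
    · rw [← sum_add_distrib]
      refine sum_congr rfl fun x _ => ?_
      exact sum_Zf hF hX1 (by linarith) _
  have h3 : ∑ x ∈ Zf F X B, ∑ y ∈ Zf F X B, k x y ≤ C1 * (X * Real.log X) :=
    hblk X ((le_max_right _ _).trans hX)
  -- the cross terms
  set N1 := ∑ x ∈ Zf F (X - 1) (X + 1), (mult F x : ℝ) with hN1
  have hN1le : N1 ≤ C2 * Real.log X := by
    have := hnear X (by linarith)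
    rw [NN_eq hF (by linarith), Nat.cast_sum] at this
    exact this
  have hN10 : 0 ≤ N1 := sum_nonneg fun x _ => Nat.cast_nonneg _
  have h4 : ∑ x ∈ Zf F 1 X, ∑ y ∈ Zf F X B, k x y ≤ N1 * N1 := by
    have a1 : ∑ x ∈ Zf F 1 X, ∑ y ∈ Zf F X B, k x y ≤
        ∑ x ∈ (Zf F 1 X).filter (fun x => X - 1 < x.im),
        ∑ y ∈ (Zf F X B).filter (fun y => y.im ≤ X + 1), (mult F x : ℝ) * (mult F y : ℝ) := by
      rw [sum_filter]
      refine sum_le_sum fun x hx => ?_
      have hx' := (mem_Zf hF le_rfl).1 hx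
      by_cases hx1 : X - 1 < x.im
      · rw [if_pos hx1, sum_filter (s := Zf F X B) (fun y => y.im ≤ X + 1)
          (fun y => (mult F x : ℝ) * (mult F y : ℝ))]
        refine sum_le_sum fun y hy => ?_
        have hxX : x.im ≤ X := hx'.2.2.2.1
        by_cases hy1 : y.im ≤ X + 1
        · rw [if_pos hy1]
          simp only [hk]
          exact mul_le_of_le_one_right (mul_nonneg (Nat.cast_nonneg _) (Nat.cast_nonneg _))
            (ite01 _)
        · rw [if_neg hy1]
          simp only [hk]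
          rw [if_neg, mul_zero]
          intro h
          have h5 : |x.im - y.im| ≤ 1 := h.trans (by rw [div_le_one (by linarith)]; exact hL)
          rw [abs_le] at h5
          push Not at hy1
          linarith [h5.1]
      · rw [if_neg hx1]
        refine le_of_eq (sum_eq_zero fun y hy => ?_)
        have hyX : X < y.im := ((mem_Zf hF hX1).1 hy).2.2.1
        simp only [hk]
        rw [if_neg, mul_zero]
        intro h
        have h5 : |x.im - y.im| ≤ 1 := h.trans (by rw [div_le_one (by linarith)]; exact hL)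
        rw [abs_le] at h5
        push Not at hx1
        linarith [h5.1]
    refine a1.trans ?_
    rw [← sum_mul_sum]
    have a2 : ∑ x ∈ (Zf F 1 X).filter (fun x => X - 1 < x.im), (mult F x : ℝ) ≤ N1 := by
      refine sum_le_sum_of_subset_of_nonneg ?_ fun x _ _ => Nat.cast_nonneg _
      intro x hx
      rw [mem_filter] at hx
      have hx' := (mem_Zf hF le_rfl).1 hx.1
      rw [mem_Zf hF (by linarith)]
      exact ⟨hx'.1, hx'.2.1, hx.2, by linarith [hx'.2.2.2.1], hx'.2.2.2.2⟩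
    have a3 : ∑ y ∈ (Zf F X B).filter (fun y => y.im ≤ X + 1), (mult F y : ℝ) ≤ N1 := by
      refine sum_le_sum_of_subset_of_nonneg ?_ fun x _ _ => Nat.cast_nonneg _
      intro x hx
      rw [mem_filter] at hx
      have hx' := (mem_Zf hF hX1).1 hx.1
      rw [mem_Zf hF (by linarith)]
      exact ⟨hx'.1, hx'.2.1, by linarith [hx'.2.2.1], hx.2, hx'.2.2.2.2⟩
    exact mul_le_mul a2 a3 (sum_nonneg fun x _ => Nat.cast_nonneg _) hN10
  have h5 : ∑ x ∈ Zf F X B, ∑ y ∈ Zf F 1 X, k x y = ∑ x ∈ Zf F 1 X, ∑ y ∈ Zf F X B, k x y := by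
    rw [sum_comm]
    refine sum_congr rfl fun x _ => sum_congr rfl fun y _ => ?_
    simp only [hk]
    rw [abs_sub_comm, mul_comm ((mult F y : ℕ) : ℝ)]
  have h6 : N1 * N1 ≤ C2 ^ 2 * (X * Real.log X) := by
    calc N1 * N1 ≤ (C2 * Real.log X) * (C2 * Real.log X) :=
          mul_le_mul hN1le hN1le hN10 (hN10.trans hN1le)
      _ = C2 ^ 2 * (Real.log X * Real.log X) := by ring
      _ ≤ C2 ^ 2 * (X * Real.log X) := by
          refine mul_le_mul_of_nonneg_left ?_ (by positivity)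
          exact mul_le_mul_of_nonneg_right hLX (by linarith)
  have h7 : ∑ x ∈ Zf F 1 X, ∑ y ∈ Zf F 1 X, k x y = QpF F X := rfl
  have h8 : (C1 + 2 * C2 ^ 2) * (X * Real.log X) =
      C1 * (X * Real.log X) + 2 * (C2 ^ 2 * (X * Real.log X)) := by ring
  rw [h8]
  linarith

theorem q_all (hF : GoodL F) (hp : Prs F) : ∃ P T0 : ℝ, 0 ≤ P ∧ 100 ≤ T0 ∧ ∀ T : ℝ, T0 ≤ T →
    QpF F T ≤ P * (T * Real.log T) := by
  classical
  obtain ⟨C, T0, hC, hT0, hstep⟩ := q_step hF hp
  set A := (∑ x ∈ Zf F 1 (3 / 2 * T0), (mult F x : ℝ)) *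
    (∑ x ∈ Zf F 1 (3 / 2 * T0), (mult F x : ℝ)) with hA
  have hA1 : 0 ≤ ∑ x ∈ Zf F 1 (3 / 2 * T0), (mult F x : ℝ) :=
    sum_nonneg fun x _ => Nat.cast_nonneg _
  have hA0 : 0 ≤ A := mul_nonneg hA1 hA1
  refine ⟨A + 2 * C, T0, by positivity, hT0, fun T hT => ?_⟩
  refine recur (QpF F) T0 A C (by linarith) hA0 hC.le (by
    intro U hU1 hU2
    have a1 : ∑ x ∈ Zf F 1 U, (mult F x : ℝ) ≤ ∑ x ∈ Zf F 1 (3 / 2 * T0), (mult F x : ℝ) := by
      have h2 := sum_Zf hF (X := U) (B := 3 / 2 * T0) (by linarith) hU2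
        (fun s => (mult F s : ℝ))
      have h3 : 0 ≤ ∑ s ∈ Zf F U (3 / 2 * T0), (mult F s : ℝ) :=
        sum_nonneg fun x _ => Nat.cast_nonneg _
      linarith
    have a2 : QpF F U ≤ (∑ x ∈ Zf F 1 U, (mult F x : ℝ)) * (∑ x ∈ Zf F 1 U, (mult F x : ℝ)) := by
      rw [sum_mul_sum]
      unfold QpF
      refine sum_le_sum fun x _ => sum_le_sum fun y _ => ?_
      exact mul_le_of_le_one_right (mul_nonneg (Nat.cast_nonneg _) (Nat.cast_nonneg _)) (ite01 _)
    refine a2.trans ?_
    rw [hA]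
    exact mul_le_mul a1 a1 (sum_nonneg fun x _ => Nat.cast_nonneg _) hA1) hstep T hT

end Pool.Agent.W2helper80.UL
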