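import Pool.Agent.TH801.LR.Vv
import Pool.Agent.H345R2.SI.JJ

/-! The mean square of the local sums over the zeros of a general L-function (the proof of
`Pool.Agent.TH801.LR.jb`, where it is for zeta). -/

set_option autoImplicit false

open Finset MeasureTheory Complex
open scoped ComplexConjugate

namespace Pool.Agent.W2helper80.UL

open H370 hiding PP
open Pool.Agent.TH801.LR (VV_bound)

theorem jbF {F : ℂ → ℂ} (hF : GoodL F) : ∃ K T0 : ℝ, 0 < K ∧ 100 ≤ T0 ∧ ∀ X : ℝ, T0 ≤ X → ∀ u : ℝ, 0 ≤ u →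
    u ≤ 3 / 4 * Real.log X → JJ F X (3 / 2 * X) u ≤
      K * X * (Real.log X ^ 2 * Real.exp (-u ^ 2) + Real.log X) := by
  obtain ⟨C, hC, hVV⟩ := VV_bound
  obtain ⟨K1, K2, T0, hK1, hK2, hT0, hJ⟩ := H370.SI.JJ_short hF (9 / 10) (1 / 10) 1
    (by norm_num) (by norm_num) (by norm_num) (by norm_num) (by norm_num)
  -- eventual facts
  have ev1 : ∀ᶠ X : ℝ in Filter.atTop, X ^ (9 / 10 : ℝ) ≤ X / 2 := by
    have h1 := tendsto_rpow_atTop (y := (1 / 10 : ℝ)) (by norm_num)
    filter_upwards [h1.eventually_ge_atTop 2, Filter.eventually_gt_atTop 0] with X h2 h3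
    have h4 : X = X ^ (9 / 10 : ℝ) * X ^ (1 / 10 : ℝ) := by
      rw [← Real.rpow_add h3]; norm_num
    have h5 : 0 < X ^ (9 / 10 : ℝ) := Real.rpow_pos_of_pos h3 _
    nlinarith
  obtain ⟨T1, hT1⟩ := Filter.eventually_atTop.1 ev1
  refine ⟨(2 / Real.pi) * (1 + K1 * Real.exp 2 + 8 * C) + K2, max (max (2 * T0) T1) (Real.exp 20),
    by positivity, ?_, ?_⟩
  · have h1 : (100 : ℝ) ≤ Real.exp 20 := by
      have h2 := Real.add_one_le_exp (10 : ℝ)
      have h3 : Real.exp 20 = Real.exp 10 * Real.exp 10 := by rw [← Real.exp_add]; norm_num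
      nlinarith
    exact h1.trans (le_max_right _ _)
  intro X hX u hu hu2
  have hX0 : 2 * T0 ≤ X := (le_max_left _ _).trans ((le_max_left _ _).trans hX)
  have hX1 : T1 ≤ X := (le_max_right _ _).trans ((le_max_left _ _).trans hX)
  have hX2 : Real.exp 20 ≤ X := (le_max_right _ _).trans hX
  have hXpos : 0 < X := (Real.exp_pos _).trans_le hX2
  have hX20 : 20 ≤ X := by linarith
  have hL : 20 ≤ Real.log X := (Real.le_log_iff_exp_le hXpos).2 hX2
  set T := 9 / 10 * X with hT
  have hTpos : 0 < T := by positivity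
  have hlT : Real.log X - 1 ≤ Real.log T := by
    rw [hT, Real.log_mul (by norm_num) hXpos.ne']
    have h1 : (-1 : ℝ) ≤ Real.log (9 / 10) := by
      rw [Real.le_log_iff_exp_le (by norm_num)]
      have := Real.exp_neg_one_lt_half
      linarith
    linarith
  have hlT2 : Real.log T ≤ Real.log X := Real.log_le_log hTpos (by rw [hT]; linarith)
  have hpow : T ^ (9 / 10 : ℝ) ≤ X ^ (9 / 10 : ℝ) :=
    Real.rpow_le_rpow hTpos.le (by rw [hT]; linarith) (by norm_num)
  have hm := hJ T (by rw [hT]; linarith) X (3 / 2 * X) (by rw [hT]; linarith)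
    (by rw [hT]; linarith) (by have := hT1 X hX1; linarith) u hu (by nlinarith)
  have e1 : 3 / 2 * X - X = X / 2 := by ring
  rw [e1] at hm
  refine hm.trans ?_
  have hlT0 : 0 ≤ Real.log T := by linarith
  have hexp : Real.exp (2 * u - u ^ 2 / 2) ≤ Real.exp 2 := by
    apply Real.exp_le_exp.2
    nlinarith [sq_nonneg (u - 2)]
  have hV := hVV u hu
  have hV2 : VV u ≤ 2 * C * Real.log X := by
    refine hV.trans ?_
    nlinarith
  set E := Real.exp (-u ^ 2) with hE
  have hE0 : 0 < E := Real.exp_pos _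
  have hL0 : 0 < Real.log X := by linarith
  have a1 : X / 2 * Real.log T ^ 2 * E ≤ X * Real.log X ^ 2 * E := by
    have : Real.log T ^ 2 ≤ Real.log X ^ 2 := pow_le_pow_left₀ hlT0 hlT2 2
    have h2 : X / 2 * Real.log T ^ 2 ≤ X * Real.log X ^ 2 :=
      mul_le_mul (by linarith) this (by positivity) hXpos.le
    exact mul_le_mul_of_nonneg_right h2 hE0.le
  have a2 : K1 * (X / 2 * Real.log T) * Real.exp (2 * u - u ^ 2 / 2) ≤
      K1 * Real.exp 2 * (X * Real.log X) := by
    have h2 : X / 2 * Real.log T ≤ X * Real.log X := mul_le_mul (by linarith) hlT2 hlT0 hXpos.le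
    calc _ ≤ K1 * (X * Real.log X) * Real.exp 2 := by gcongr
      _ = _ := by ring
  have a3 : (1 + (1 : ℝ)) ^ 2 * (X / 2) * VV u ≤ 8 * C * (X * Real.log X) := by
    calc (1 + (1 : ℝ)) ^ 2 * (X / 2) * VV u = 2 * X * VV u := by ring
      _ ≤ 2 * X * (2 * C * Real.log X) := by gcongr
      _ ≤ _ := by
          have : 0 < X * Real.log X * C := by positivity
          nlinarith
  have a4 : K2 * (X / 2) ≤ K2 * (X * Real.log X) := by
    have : X / 2 ≤ X * Real.log X := by nlinarith
    gcongr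
  have hpi := Real.pi_pos
  have b1 : (1 + (1 : ℝ)) / (2 * Real.pi) ≤ 2 / Real.pi := by
    rw [div_le_div_iff₀ (by positivity) hpi]
    nlinarith
  have hXL : 0 ≤ X * Real.log X := by positivity
  have hXE : 0 ≤ X * Real.log X ^ 2 * E := by positivity
  calc (1 + (1 : ℝ)) / (2 * Real.pi) * (X / 2 * Real.log T ^ 2 * E +
        K1 * (X / 2 * Real.log T) * Real.exp (2 * u - u ^ 2 / 2) +
        (1 + (1 : ℝ)) ^ 2 * (X / 2) * VV u) + K2 * (X / 2) ≤
      2 / Real.pi * (X * Real.log X ^ 2 * E + K1 * Real.exp 2 * (X * Real.log X) +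
        8 * C * (X * Real.log X)) + K2 * (X * Real.log X) := by
        refine add_le_add (mul_le_mul b1 (by linarith) ?_ (by positivity)) a4
        have : 0 ≤ VV u := VV_nonneg u
        positivity
    _ ≤ _ := by
        have c1 : 0 ≤ 2 / Real.pi * (K1 * Real.exp 2) * (X * Real.log X ^ 2 * E) := by positivity
        have c2 : 0 ≤ 2 / Real.pi * (8 * C) * (X * Real.log X ^ 2 * E) := by positivity
        have c3 : 0 ≤ K2 * (X * Real.log X ^ 2 * E) := by positivity
        have c4 : 0 ≤ 2 / Real.pi * (X * Real.log X) := by positivity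
        nlinarith

end Pool.Agent.W2helper80.UL
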