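import Pool.Agent.TH801.LR.Main

/-! The theorem on long linear relations for an abstract set of points: affine relations. -/

set_option autoImplicit false

open Finset MeasureTheory Complex
open scoped ComplexConjugate

namespace Pool.Agent.W2helper80.UL

open H177.Lat (tri tri_nonneg tri_zero tri_in tri_integrable KK KK_nonneg KK_le KK_sq)
open Pool.Agent.TH801.LR hiding main

theorem count_sh {n : ℕ} (a : ℝ) (c : Fin n → ℝ) (A : Fin n → Finset ℝ) (Γ : Finset ℝ) (N P L : ℝ)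
    (hL : 0 < L) (hP : ∑ x ∈ Γ, ∑ y ∈ Γ, 1 / (1 + (L * (x - y)) ^ 2) ≤ P * N)
    (hA : ∀ i, A i ⊆ Γ) (i0 i1 : Fin n) (h01 : i0 ≠ i1) (b : ℝ) (hb0 : b ≤ |c i0|)
    (hb1 : b ≤ |c i1|) (E0 E κ : ℝ) (hE0 : 0 < E0) (hE : E0 ≤ E) (hbE : L ≤ 2 * Real.pi * b * E0)
    (hκ : 0 ≤ κ)
    (hcl : ∀ u : ℝ, E0 < |u| → |u| ≤ E →
      ∏ i ∈ (univ.erase i0).erase i1, ‖Sx (A i) (2 * Real.pi * c i * u)‖ ≤
        κ * ∏ i ∈ (univ.erase i0).erase i1, ((A i).card : ℝ)) :
    (((Fintype.piFinset A).filter (fun x : Fin n → ℝ =>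
      |∑ i, c i * x i - a| ≤ 1 / (2 * Real.pi * E))).card : ℝ) * E ≤
      88 * (P * N) * (E0 + κ * E) * ∏ i ∈ (univ.erase i0).erase i1, ((A i).card : ℝ) := by
  classical
  have hEpos : 0 < E := hE0.trans_le hE
  have hpi0 := Real.pi_pos
  set Q := ∏ i ∈ (univ.erase i0).erase i1, ((A i).card : ℝ) with hQ
  have hQ0 : 0 ≤ Q := prod_nonneg fun _ _ => Nat.cast_nonneg _
  set z : (Fin n → ℝ) → ℝ := fun x => ∑ i, c i * x i - a with hz
  set F : ℝ → ℝ := fun u => ‖Sx (A i0) (2 * Real.pi * c i0 * u)‖ ^ 2 +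
    ‖Sx (A i1) (2 * Real.pi * c i1 * u)‖ ^ 2 with hF
  have hFc : Continuous F := by
    have h1 := Sx_cont (A i0)
    have h2 := Sx_cont (A i1)
    simp only [hF]
    fun_prop
  have hF0 : ∀ u, 0 ≤ F u := fun u => by simp only [hF]; positivity
  -- integrals of F
  have hFint : ∀ e : ℝ, E0 ≤ e → ∫ u in (-e)..e, F u ≤ 88 * e * (P * N) := by
    intro e he
    have he0 : 0 < e := hE0.trans_le he
    have hbb : ∀ j : Fin n, b ≤ |c j| → L ≤ 2 * Real.pi * |c j| * e := by
      intro j hj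
      refine hbE.trans ?_
      have : b * E0 ≤ |c j| * e := mul_le_mul hj he hE0.le (abs_nonneg _)
      nlinarith
    have h1 := l2 Γ N P L hL hP (A i0) (hA i0) (c i0) e he0 (hbb i0 hb0)
    have h2 := l2 Γ N P L hL hP (A i1) (hA i1) (c i1) e he0 (hbb i1 hb1)
    have c0 : Continuous fun u : ℝ => ‖Sx (A i0) (2 * Real.pi * c i0 * u)‖ ^ 2 := by
      have := Sx_cont (A i0); fun_prop
    have c1 : Continuous fun u : ℝ => ‖Sx (A i1) (2 * Real.pi * c i1 * u)‖ ^ 2 := by
      have := Sx_cont (A i1); fun_prop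
    have h3 : ∫ u in (-e)..e, F u = (∫ u in (-e)..e, ‖Sx (A i0) (2 * Real.pi * c i0 * u)‖ ^ 2) +
        ∫ u in (-e)..e, ‖Sx (A i1) (2 * Real.pi * c i1 * u)‖ ^ 2 :=
      intervalIntegral.integral_add (c0.intervalIntegrable _ _) (c1.intervalIntegrable _ _)
    rw [h3]
    linarith
  -- pointwise bound of the product
  have hprod : ∀ u : ℝ, |u| ≤ E → ‖∏ i, Sx (A i) (2 * Real.pi * c i * u)‖ ≤
      Q / 2 * ((if |u| ≤ E0 then F u else 0) + κ * F u) := by
    intro u hu
    have e1 : ‖∏ i, Sx (A i) (2 * Real.pi * c i * u)‖ =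
        ‖Sx (A i0) (2 * Real.pi * c i0 * u)‖ * (‖Sx (A i1) (2 * Real.pi * c i1 * u)‖ *
          ∏ i ∈ (univ.erase i0).erase i1, ‖Sx (A i) (2 * Real.pi * c i * u)‖) := by
      rw [norm_prod, ← mul_prod_erase univ _ (mem_univ i0),
        ← mul_prod_erase (univ.erase i0) _ (mem_erase.2 ⟨h01.symm, mem_univ i1⟩)]
    rw [e1, ← mul_assoc]
    set a₀ := ‖Sx (A i0) (2 * Real.pi * c i0 * u)‖ with ha
    set d := ‖Sx (A i1) (2 * Real.pi * c i1 * u)‖ with hd
    have ha0 : 0 ≤ a₀ := norm_nonneg _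
    have hd0 : 0 ≤ d := norm_nonneg _
    have had : a₀ * d ≤ F u / 2 := by
      have e5 : F u = a₀ ^ 2 + d ^ 2 := rfl
      have e6 : 0 ≤ (a₀ - d) ^ 2 := sq_nonneg _
      rw [e5]
      have e7 : (a₀ - d) ^ 2 = a₀ ^ 2 + d ^ 2 - 2 * (a₀ * d) := by ring
      rw [e7] at e6
      linarith
    set R := ∏ i ∈ (univ.erase i0).erase i1, ‖Sx (A i) (2 * Real.pi * c i * u)‖ with hR
    have hR0 : 0 ≤ R := prod_nonneg fun _ _ => norm_nonneg _
    have hRQ : R ≤ Q := prod_le_prod (fun _ _ => norm_nonneg _) fun i _ => Sx_le _ _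
    by_cases hu2 : |u| ≤ E0
    · rw [if_pos hu2]
      exact ar1 a₀ d R (F u) Q κ had hR0 hRQ (hF0 u) hκ
    · rw [if_neg hu2]
      exact ar2 a₀ d R (F u) Q κ had hR0 (hcl u (not_le.1 hu2) hu) (hF0 u)
  -- integrated form
  clear_value F Q
  set G : ℝ → ℝ := fun u => Q / 2 * ((Set.Icc (-E0) E0).indicator F u +
    κ * (Set.Icc (-E) E).indicator F u) with hG
  have hind : ∀ e : ℝ, Integrable ((Set.Icc (-e) e).indicator F) := by
    intro e
    rw [integrable_indicator_iff measurableSet_Icc]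
    exact hFc.integrableOn_Icc
  have hGi : Integrable G := ((hind E0).add ((hind E).const_mul κ)).const_mul _
  have hindint : ∀ e : ℝ, 0 < e → ∫ u, (Set.Icc (-e) e).indicator F u = ∫ u in (-e)..e, F u := by
    intro e he
    rw [integral_indicator measurableSet_Icc, integral_Icc_eq_integral_Ioc,
      ← intervalIntegral.integral_of_le (by linarith)]
  have hGint : ∫ u, G u ≤ 44 * (P * N) * (E0 + κ * E) * Q := by
    simp only [hG]
    rw [integral_const_mul, integral_add (hind E0) ((hind E).const_mul κ), integral_const_mul,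
      hindint E0 hE0, hindint E hEpos]
    have h1 := hFint E0 le_rfl
    have h2 := hFint E hE
    refine (ar4 Q _ _ κ _ _ h1 h2 hQ0 hκ).trans (le_of_eq ?_)
    ring
  have hti : ∀ x : ℝ, Integrable (fun v => tri E v * Real.cos (2 * Real.pi * v * x)) :=
    fun x => tri_integrable hEpos (by fun_prop)
  have hsum : ∑ x ∈ Fintype.piFinset A, KK E (z x) ≤ ∫ u, G u := by
    have e1 : ∑ x ∈ Fintype.piFinset A, KK E (z x) =
        ∫ u, ∑ x ∈ Fintype.piFinset A, tri E u * Real.cos (2 * Real.pi * u * z x) := by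
      rw [integral_finsetSum _ fun x _ => hti _]
      rfl
    rw [e1]
    refine integral_mono (integrable_finsetSum _ fun x _ => hti _) hGi ?_
    intro u
    show ∑ x ∈ Fintype.piFinset A, tri E u * Real.cos (2 * Real.pi * u * z x) ≤ G u
    rw [← mul_sum]
    have e2 : ∑ x ∈ Fintype.piFinset A, Real.cos (2 * Real.pi * u * z x) =
        (cexp (((-(2 * Real.pi * u * a) : ℝ) : ℂ) * I) *
          ∏ i, Sx (A i) (2 * Real.pi * c i * u)).re := by
      rw [prod_Sx, mul_sum, Complex.re_sum]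
      refine sum_congr rfl fun x _ => ?_
      rw [mul_comm I, ← Complex.exp_add, ← add_mul, ← Complex.ofReal_add,
        Complex.exp_ofReal_mul_I_re]
      congr 1
      simp only [hz]
      rw [mul_sub, mul_sum]
      have e9 : ∑ i, 2 * Real.pi * u * (c i * x i) = ∑ i, 2 * Real.pi * c i * u * x i :=
        sum_congr rfl fun i _ => by ring
      rw [e9]
      ring
    have e2n : ‖cexp (((-(2 * Real.pi * u * a) : ℝ) : ℂ) * I) *
          ∏ i, Sx (A i) (2 * Real.pi * c i * u)‖ = ‖∏ i, Sx (A i) (2 * Real.pi * c i * u)‖ := by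
      rw [norm_mul, Complex.norm_exp_ofReal_mul_I, one_mul]
    rw [e2]
    rcases le_or_gt (|u|) E with hu | hu
    · have htr1 : tri E u ≤ 1 := by
        unfold tri
        apply max_le (by norm_num)
        have : 0 ≤ |u| / E := by positivity
        linarith
      have htr0 := tri_nonneg E u
      have h1 : tri E u * (cexp (((-(2 * Real.pi * u * a) : ℝ) : ℂ) * I) *
          ∏ i, Sx (A i) (2 * Real.pi * c i * u)).re ≤
          ‖∏ i, Sx (A i) (2 * Real.pi * c i * u)‖ :=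
        ar3 _ _ _ htr0 htr1 ((Complex.re_le_norm _).trans (le_of_eq e2n)) (norm_nonneg _)
      refine h1.trans ((hprod u hu).trans ?_)
      simp only [hG]
      have e3 : (Set.Icc (-E) E).indicator F u = F u :=
        Set.indicator_of_mem (Set.mem_Icc.2 (abs_le.1 hu)) _
      have e4 : (Set.Icc (-E0) E0).indicator F u = if |u| ≤ E0 then F u else 0 := by
        split_ifs with h
        · exact Set.indicator_of_mem (Set.mem_Icc.2 (abs_le.1 h)) _
        · exact Set.indicator_of_notMem (fun h2 => h (abs_le.2 (Set.mem_Icc.1 h2))) _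
      rw [e3, e4]
    · rw [tri_zero hEpos hu.le, zero_mul]
      simp only [hG]
      have h1 : ∀ e : ℝ, 0 ≤ (Set.Icc (-e) e).indicator F u := fun e =>
        Set.indicator_nonneg (fun u _ => hF0 u) u
      have h2 := h1 E0
      have h3 := mul_nonneg hκ (h1 E)
      exact mul_nonneg (by linarith) (by linarith)
  have hlow : (((Fintype.piFinset A).filter (fun x : Fin n → ℝ =>
      |∑ i, c i * x i - a| ≤ 1 / (2 * Real.pi * E))).card : ℝ) * (E / 2) ≤
      ∑ x ∈ Fintype.piFinset A, KK E (z x) := by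
    rw [← nsmul_eq_mul, ← sum_const]
    refine le_trans (sum_le_sum fun x hx => ?_)
      (sum_le_sum_of_subset_of_nonneg (filter_subset _ _) fun x _ _ => KK_nonneg hEpos _)
    rw [mem_filter] at hx
    apply KK_near hEpos
    have h1 : |z x| ≤ 1 / (2 * Real.pi * E) := hx.2
    rw [le_div_iff₀ (by positivity)] at h1
    linarith
  have hfin := (hlow.trans hsum).trans hGint
  linarith

/-- the number of near relations with a parameter -/
lemma step1_sh {n : ℕ} (a : ℝ) (c : Fin n → ℝ) (A : Fin n → Finset ℝ) (Γ : Finset ℝ) (N P L : ℝ)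
    (hL : 0 < L) (hP : ∑ x ∈ Γ, ∑ y ∈ Γ, 1 / (1 + (L * (x - y)) ^ 2) ≤ P * N)
    (hA : ∀ i, A i ⊆ Γ) (i0 i1 : Fin n) (h01 : i0 ≠ i1) (h10 : |c i1| ≤ |c i0|)
    (hb : 0 < |c i1|) (Y κ w : ℝ) (hY : 1 ≤ Y) (hκ : 0 ≤ κ)
    (hw : w ≤ |c i1| / (L * Y))
    (hcl : ∀ u : ℝ, L / (2 * Real.pi * |c i1|) < |u| → |u| ≤ L / (2 * Real.pi * |c i1|) * Y →
      ∏ i ∈ (univ.erase i0).erase i1, ‖Sx (A i) (2 * Real.pi * c i * u)‖ ≤
        κ * ∏ i ∈ (univ.erase i0).erase i1, ((A i).card : ℝ)) :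
    (((Fintype.piFinset A).filter (fun x : Fin n → ℝ => |∑ i, c i * x i - a| ≤ w)).card : ℝ) ≤
      88 * (P * N) * (1 / Y + κ) * ∏ i ∈ (univ.erase i0).erase i1, ((A i).card : ℝ) := by
  classical
  have hpi0 := Real.pi_pos
  have hY0 : 0 < Y := by linarith
  set b := |c i1| with hbdef
  set E0 := L / (2 * Real.pi * b) with hE0
  have hE00 : 0 < E0 := by positivity
  have hE : E0 ≤ E0 * Y := by nlinarith
  have hEpos : 0 < E0 * Y := by positivity
  have h1 := count_sh a c A Γ N P L hL hP hA i0 i1 h01 b h10 le_rfl E0 (E0 * Y) κ hE00 hE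
    (le_of_eq (by rw [hE0]; field_simp)) hκ hcl
  have h2 : (((Fintype.piFinset A).filter (fun x : Fin n → ℝ => |∑ i, c i * x i - a| ≤ w)).card : ℝ) ≤
      (((Fintype.piFinset A).filter (fun x : Fin n → ℝ =>
        |∑ i, c i * x i - a| ≤ 1 / (2 * Real.pi * (E0 * Y)))).card : ℝ) := by
    have : (Fintype.piFinset A).filter (fun x : Fin n → ℝ => |∑ i, c i * x i - a| ≤ w) ⊆
        (Fintype.piFinset A).filter (fun x : Fin n → ℝ =>
          |∑ i, c i * x i - a| ≤ 1 / (2 * Real.pi * (E0 * Y))) := by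
      intro x hx
      rw [mem_filter] at hx ⊢
      refine ⟨hx.1, hx.2.trans (hw.trans (le_of_eq ?_))⟩
      rw [hE0]
      field_simp
    exact_mod_cast card_le_card this
  set X := (((Fintype.piFinset A).filter (fun x : Fin n → ℝ =>
        |∑ i, c i * x i - a| ≤ 1 / (2 * Real.pi * (E0 * Y)))).card : ℝ) with hX
  refine h2.trans ?_
  set Q := ∏ i ∈ (univ.erase i0).erase i1, ((A i).card : ℝ) with hQ
  have h3 : X * (E0 * Y) ≤ (88 * (P * N) * (1 / Y + κ) * Q) * (E0 * Y) := by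
    refine h1.trans (le_of_eq ?_)
    field_simp
  exact le_of_mul_le_mul_right h3 hEpos

end Pool.Agent.W2helper80.UL
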