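import Pool.Agent.W2helper80.UL.Blk

/-! The exponential sum over the zeros with ordinates in `(X, 3X/2]`, without any hypothesis on the
real parts, at all frequencies between `C/X` and `e log X`. -/

set_option autoImplicit false

open Finset MeasureTheory Complex
open scoped ComplexConjugate

namespace Pool.Agent.W2helper80.UL

open H370

/-- the integral of the local sums -/
lemma int_AA {F : ℂ → ℂ} (hF : GoodL F) {X : ℝ} (hX : 1 ≤ X) (u : ℝ) :
    ∫ t : ℝ, AA F X (3 / 2 * X) u t = (Real.sqrt (2 * Real.pi) : ℂ) *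
      ∑ s ∈ Zf F X (3 / 2 * X), (mult F s : ℂ) * cexp (I * u * zz s) := by
  simp_rw [AA_eq hF hX, hh_eq]
  rw [integral_finsetSum _ fun s _ => ((gauss_single_int _).const_mul _).const_mul _, mul_sum]
  refine sum_congr rfl fun s _ => ?_
  rw [integral_const_mul, integral_const_mul, gauss_single]
  ring

/-- the interior, large frequencies -/
lemma inner_large {F : ℂ → ℂ} (hF : GoodL F) (ε : ℝ) (hε : 0 < ε) : ∃ u0 T0 : ℝ, 1 ≤ u0 ∧ 100 ≤ T0 ∧
    ∀ X : ℝ, T0 ≤ X → ∀ u : ℝ, u0 ≤ u → u ≤ 3 / 4 * Real.log X →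
      ∫ t in Set.Icc (X + Real.log X) (3 / 2 * X - Real.log X), ‖AA F X (3 / 2 * X) u t‖ ≤
        ε * (X * Real.log X) := by
  obtain ⟨K, T1, hK, hT1, hjb⟩ := jbF hF
  -- e^{-u²} small
  set u0 : ℝ := max 1 (K / ε ^ 2) with hu0
  refine ⟨u0, max T1 (Real.exp (max 1 (K / ε ^ 2))), le_max_left _ _,
    hT1.trans (le_max_left _ _), ?_⟩
  intro X hX u hu1 hu2
  have hXT1 : T1 ≤ X := (le_max_left _ _).trans hX
  have hX100 : 100 ≤ X := hT1.trans hXT1
  have hX0 : 0 < X := by linarith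
  have hX1 : 1 ≤ X := by linarith
  have hLm : max 1 (K / ε ^ 2) ≤ Real.log X :=
    (Real.le_log_iff_exp_le hX0).2 ((le_max_right _ _).trans hX)
  have hL1 : 1 ≤ Real.log X := (le_max_left _ _).trans hLm
  have hL2 : K / ε ^ 2 ≤ Real.log X := (le_max_right _ _).trans hLm
  set L := Real.log X with hL
  have hL0 : 0 < L := by linarith
  have hu1' : 1 ≤ u := (le_max_left _ _).trans hu1
  have hu2' : K / ε ^ 2 ≤ u := (le_max_right _ _).trans hu1
  have hJ := hjb X hXT1 u (by linarith) hu2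
  have hexp : K * Real.exp (-u ^ 2) ≤ ε ^ 2 := by
    have h1 : u ≤ Real.exp (u ^ 2) := by
      have := Real.add_one_le_exp (u ^ 2)
      nlinarith
    rw [Real.exp_neg, ← div_eq_mul_inv, div_le_iff₀ (Real.exp_pos _)]
    rw [div_le_iff₀ (by positivity)] at hu2'
    nlinarith [sq_nonneg ε]
  have hKL : K ≤ ε ^ 2 * L := by
    rw [div_le_iff₀ (by positivity)] at hL2; linarith
  have hJ2 : JJ F X (3 / 2 * X) u ≤ 2 * ε ^ 2 * X * L ^ 2 := by
    refine hJ.trans ?_
    have e1 : K * X * (L ^ 2 * Real.exp (-u ^ 2) + L) =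
        (K * Real.exp (-u ^ 2)) * (X * L ^ 2) + K * (X * L) := by ring
    rw [e1]
    have h1 : (K * Real.exp (-u ^ 2)) * (X * L ^ 2) ≤ ε ^ 2 * (X * L ^ 2) := by gcongr
    have h2 : K * (X * L) ≤ ε ^ 2 * L * (X * L) := by gcongr
    linarith
  set lam := 2 * ε * L with hlam
  have hlam0 : 0 < lam := by positivity
  set I0 := Set.Icc (X + L) (3 / 2 * X - L) with hI0
  have hpt : ∀ t ∈ I0, ‖AA F X (3 / 2 * X) u t‖ ≤ lam / 2 +
      ‖AA F X (3 / 2 * X) u t‖ ^ 2 / (2 * lam) := by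
    intro t _
    set y := ‖AA F X (3 / 2 * X) u t‖
    have h2 : 0 ≤ (lam - y) ^ 2 / (2 * lam) := by positivity
    have h3 : (lam - y) ^ 2 / (2 * lam) = lam / 2 + y ^ 2 / (2 * lam) - y := by
      field_simp; ring
    linarith
  have hi2 : IntegrableOn (fun t => ‖AA F X (3 / 2 * X) u t‖ ^ 2 / (2 * lam)) I0 :=
    ((AA_sq_int hF hX1 u).div_const _).integrableOn
  have hi1 : IntegrableOn (fun _ : ℝ => lam / 2) I0 := integrableOn_const (by simp [hI0])
  have h1 := setIntegral_mono_on (AA_int hF hX1 u).norm.integrableOn (hi1.add hi2)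
    measurableSet_Icc hpt
  refine h1.trans ?_
  have h2 : ∫ t in I0, (lam / 2 + ‖AA F X (3 / 2 * X) u t‖ ^ 2 / (2 * lam)) =
      (∫ t in I0, lam / 2) + ∫ t in I0, ‖AA F X (3 / 2 * X) u t‖ ^ 2 / (2 * lam) :=
    integral_add hi1 hi2
  have h3 : ∫ t in I0, lam / 2 ≤ lam / 2 * (X / 2) := by
    rw [setIntegral_const, smul_eq_mul, Measure.real, hI0, Real.volume_Icc]
    have : (ENNReal.ofReal (3 / 2 * X - L - (X + L))).toReal ≤ X / 2 := by
      rw [ENNReal.toReal_ofReal']
      exact max_le (by linarith) (by linarith)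
    nlinarith
  have h4 : ∫ t in I0, ‖AA F X (3 / 2 * X) u t‖ ^ 2 / (2 * lam) ≤
      JJ F X (3 / 2 * X) u / (2 * lam) := by
    rw [integral_div]
    refine div_le_div_of_nonneg_right ?_ (by positivity)
    exact setIntegral_le_integral (AA_sq_int hF hX1 u)
      (Filter.Eventually.of_forall fun t => by positivity)
  have h5 : JJ F X (3 / 2 * X) u / (2 * lam) ≤ ε / 2 * (X * L) := by
    rw [div_le_iff₀ (by positivity)]
    refine hJ2.trans (le_of_eq ?_)
    rw [hlam]; ring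
  refine (le_of_eq h2).trans ?_
  have h6 : lam / 2 * (X / 2) = ε / 2 * (X * L) := by rw [hlam]; ring
  linarith

/-- an oscillating integral -/
lemma osc (u a b : ℝ) (hu : 0 < u) (hab : a ≤ b) :
    ‖∫ t in Set.Icc a b, cexp (I * u * t)‖ ≤ 2 / u := by
  rw [integral_Icc_eq_integral_Ioc, ← intervalIntegral.integral_of_le hab]
  have hc : (I * u : ℂ) ≠ 0 := mul_ne_zero I_ne_zero (by exact_mod_cast hu.ne')
  rw [integral_exp_mul_complex hc, norm_div]
  have e1 : ‖(I * u : ℂ)‖ = u := by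
    rw [norm_mul, Complex.norm_I, one_mul, Complex.norm_real, Real.norm_of_nonneg hu.le]
  rw [e1]
  refine div_le_div_of_nonneg_right ?_ hu.le
  refine (norm_sub_le _ _).trans ?_
  have e2 : ∀ x : ℝ, ‖cexp (I * u * x)‖ = 1 := by
    intro x
    have : (I * u * x : ℂ) = ((u * x : ℝ) : ℂ) * I := by push_cast; ring
    rw [this, Complex.norm_exp_ofReal_mul_I]
  rw [e2, e2]; norm_num

/-- the interior, small frequencies -/
lemma inner_small {F : ℂ → ℂ} (hF : GoodL F) (u0 ε : ℝ) (hε : 0 < ε) :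
    ∃ C T0 : ℝ, 0 < C ∧ 100 ≤ T0 ∧
    ∀ X : ℝ, T0 ≤ X → ∀ u : ℝ, C / X ≤ u → u ≤ u0 →
      ‖∫ t in Set.Icc (X + Real.log X) (3 / 2 * X - Real.log X), AA F X (3 / 2 * X) u t‖ ≤
        ε * (X * Real.log X) := by
  obtain ⟨a, ha, C, T1, hC, hT1, hef⟩ := H370.SI.ef_sub hF
  set S := ∑' n : ℕ, 1 / (n : ℝ) ^ 2 with hS
  have hS0 : 0 ≤ S := tsum_nonneg fun n => by positivity
  set D : ℝ := C + 2 * S * Real.exp (2 + 2 * u0) with hD
  have hD0 : 0 < D := by positivity
  refine ⟨4 / ε, max (max (2 * T1) 100) (Real.exp (max u0 (max 1 (D / ε)) + 1)), by positivity,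
    (le_max_right _ _).trans (le_max_left _ _), ?_⟩
  intro X hX u hu1 hu2
  have hXT1 : 2 * T1 ≤ X := (le_max_left _ _).trans ((le_max_left _ _).trans hX)
  have hX100 : 100 ≤ X := (le_max_right _ _).trans ((le_max_left _ _).trans hX)
  have hX0 : 0 < X := by linarith
  have hX1 : 1 ≤ X := by linarith
  have hLm : max u0 (max 1 (D / ε)) + 1 ≤ Real.log X :=
    (Real.le_log_iff_exp_le hX0).2 ((le_max_right _ _).trans hX)
  have hLu : u0 + 1 ≤ Real.log X := by linarith [le_max_left u0 (max 1 (D / ε))]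
  have hL1 : 1 ≤ Real.log X := by
    linarith [(le_max_left 1 (D / ε)).trans (le_max_right u0 (max 1 (D / ε)))]
  have hL2 : D / ε ≤ Real.log X := by
    linarith [(le_max_right 1 (D / ε)).trans (le_max_right u0 (max 1 (D / ε)))]
  set L := Real.log X with hL
  have hL0 : 0 < L := by linarith
  set T := 9 / 10 * X with hT
  have hTpos : 0 < T := by positivity
  have hlT : L - 1 ≤ Real.log T := by
    rw [hT, Real.log_mul (by norm_num) hX0.ne']
    have h1 : (-1 : ℝ) ≤ Real.log (9 / 10) := by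
      rw [Real.le_log_iff_exp_le (by norm_num)]
      have := Real.exp_neg_one_lt_half
      linarith
    linarith
  have hlT2 : Real.log T ≤ L := Real.log_le_log hTpos (by rw [hT]; linarith)
  have hlT0 : 0 ≤ Real.log T := by linarith
  have hu0' : 0 < u := lt_of_lt_of_le (by positivity) hu1
  set I0 := Set.Icc (X + L) (3 / 2 * X - L) with hI0
  have hef2 : ∀ t ∈ I0, ‖AA F X (3 / 2 * X) u t -
          (1 / Real.sqrt (2 * Real.pi) : ℝ) * (Real.log T * cexp (I * u * t) *
              Real.exp (-u ^ 2 / 2) - PP a u t)‖ ≤ C := by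
    intro t ht
    refine hef T (by rw [hT]; linarith) X (3 / 2 * X) (by rw [hT]; linarith)
      (by rw [hT]; linarith) u t hu0'.le (by linarith) ?_ ?_
    · linarith [ht.1]
    · linarith [ht.2]
  have hLX : L ≤ X / 8 := by
    have h1 := Real.log_le_sub_one_of_pos (show (0 : ℝ) < X / 25 by positivity)
    have h2 : Real.log (X / 25) = L - Real.log 25 := Real.log_div hX0.ne' (by norm_num)
    have h3 : Real.log 25 ≤ 4 := by
      have h4 : (25 : ℝ) ≤ Real.exp 1 ^ 4 := by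
        have := Real.exp_one_gt_d9
        have h5 : (2.7182818283 : ℝ) ^ 4 ≤ Real.exp 1 ^ 4 :=
          pow_le_pow_left₀ (by norm_num) this.le 4
        norm_num at h5 ⊢
        linarith
      rw [Real.log_le_iff_le_exp (by norm_num)]
      refine h4.trans (le_of_eq ?_)
      rw [← Real.exp_nat_mul]; norm_num
    linarith
  have hab : X + L ≤ 3 / 2 * X - L := by linarith
  have hsq : (1 / Real.sqrt (2 * Real.pi) : ℝ) ≤ 1 := by
    rw [div_le_one (Real.sqrt_pos.2 (by positivity)), Real.one_le_sqrt]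
    have := Real.pi_gt_three
    linarith
  have hsq0 : (0 : ℝ) ≤ 1 / Real.sqrt (2 * Real.pi) := by positivity
  -- decomposition
  set M : ℝ → ℂ := fun t => (1 / Real.sqrt (2 * Real.pi) : ℝ) * (Real.log T * cexp (I * u * t) *
              Real.exp (-u ^ 2 / 2)) with hM
  have hd : ∀ t ∈ I0, ‖AA F X (3 / 2 * X) u t - M t‖ ≤ D := by
    intro t ht
    have h1 := hef2 t ht
    have h2 := PP_bound ha u t
    have h3 : AA F X (3 / 2 * X) u t - M t = (AA F X (3 / 2 * X) u t -
          (1 / Real.sqrt (2 * Real.pi) : ℝ) * (Real.log T * cexp (I * u * t) *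
              Real.exp (-u ^ 2 / 2) - PP a u t)) - (1 / Real.sqrt (2 * Real.pi) : ℝ) * PP a u t := by
      simp only [hM]; ring
    rw [h3]
    refine (norm_sub_le _ _).trans ?_
    rw [hD]
    refine add_le_add h1 ?_
    rw [norm_mul, Complex.norm_real, Real.norm_of_nonneg hsq0]
    have h4 : Real.exp (2 + 2 * u) ≤ Real.exp (2 + 2 * u0) := Real.exp_le_exp.2 (by linarith)
    calc 1 / Real.sqrt (2 * Real.pi) * ‖PP a u t‖ ≤ 1 * (2 * S * Real.exp (2 + 2 * u)) :=
          mul_le_mul hsq h2 (norm_nonneg _) zero_le_one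
      _ ≤ 2 * S * Real.exp (2 + 2 * u0) := by rw [one_mul]; gcongr
  have hMc : Continuous M := by simp only [hM]; fun_prop
  have hMi : IntegrableOn M I0 := hMc.continuousOn.integrableOn_Icc
  have hAi : IntegrableOn (fun t => AA F X (3 / 2 * X) u t) I0 := (AA_int hF hX1 u).integrableOn
  have hvol : (volume I0).toReal ≤ X / 2 := by
    rw [hI0, Real.volume_Icc, ENNReal.toReal_ofReal']
    exact max_le (by linarith) (by linarith)
  have h1 : ‖∫ t in I0, (AA F X (3 / 2 * X) u t - M t)‖ ≤ D * (X / 2) := by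
    refine (norm_setIntegral_le_of_norm_le_const (by rw [hI0]; exact measure_Icc_lt_top) hd).trans ?_
    exact mul_le_mul_of_nonneg_left hvol hD0.le
  have h2 : ‖∫ t in I0, M t‖ ≤ L * (2 / u) := by
    have e1 : ∫ t in I0, M t = ((1 / Real.sqrt (2 * Real.pi) * (Real.log T *
        Real.exp (-u ^ 2 / 2)) : ℝ) : ℂ) * ∫ t in I0, cexp (I * u * t) := by
      rw [← integral_const_mul]
      refine integral_congr_ae (Filter.Eventually.of_forall fun t => ?_)
      simp only [hM]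
      push_cast
      ring
    rw [e1, norm_mul, Complex.norm_real, Real.norm_of_nonneg (by positivity)]
    have h3 := osc u _ _ hu0' hab
    have h4 : Real.exp (-u ^ 2 / 2) ≤ 1 := Real.exp_le_one_iff.2 (by nlinarith [sq_nonneg u])
    have h5 : 1 / Real.sqrt (2 * Real.pi) * (Real.log T * Real.exp (-u ^ 2 / 2)) ≤ L := by
      calc 1 / Real.sqrt (2 * Real.pi) * (Real.log T * Real.exp (-u ^ 2 / 2)) ≤ 1 * (L * 1) :=
            mul_le_mul hsq (mul_le_mul hlT2 h4 (Real.exp_pos _).le hL0.le) (by positivity)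
              zero_le_one
        _ = L := by ring
    exact mul_le_mul h5 h3 (norm_nonneg _) hL0.le
  have h3 : ∫ t in I0, AA F X (3 / 2 * X) u t =
      (∫ t in I0, (AA F X (3 / 2 * X) u t - M t)) + ∫ t in I0, M t := by
    rw [integral_sub hAi hMi]; ring
  rw [h3]
  refine (norm_add_le _ _).trans ?_
  have h4 : L * (2 / u) ≤ ε / 2 * (X * L) := by
    have h5 : 2 / u ≤ ε / 2 * X := by
      rw [div_le_iff₀ hu0']
      rw [div_div, div_le_iff₀ (by positivity)] at hu1
      nlinarith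
    calc L * (2 / u) ≤ L * (ε / 2 * X) := by gcongr
      _ = _ := by ring
  have h5 : D * (X / 2) ≤ ε / 2 * (X * L) := by
    rw [div_le_iff₀ hε] at hL2
    nlinarith
  linarith

/-- the exponential sum over a block -/
theorem sup_blk {F : ℂ → ℂ} (hF : GoodL F) (hd : Dens F) (ε : ℝ) (hε : 0 < ε) :
    ∃ e C T0 : ℝ, 0 < e ∧ 0 < C ∧ 100 ≤ T0 ∧ ∀ X : ℝ, T0 ≤ X → ∀ u : ℝ, C / X ≤ u →
      u ≤ e * Real.log X →
      ‖∑ s ∈ Zf F X (3 / 2 * X), (mult F s : ℂ) * cexp (I * ((u * s.im : ℝ) : ℂ))‖ ≤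
        ε * (X * Real.log X) := by
  obtain ⟨e1, T1, he1, hT1, hmove⟩ := move_sum hd (ε / 4) (by positivity)
  obtain ⟨C2, T2, hC2, hT2, hout⟩ := outer1 hF
  obtain ⟨u0, T3, hu0, hT3, hlarge⟩ := inner_large hF (ε / 4) (by positivity)
  obtain ⟨C4, T4, hC4, hT4, hsmall⟩ := inner_small hF u0 (ε / 4) (by positivity)
  have ev : ∀ᶠ X : ℝ in Filter.atTop, C2 * Real.exp (Real.log X * (3 / 8)) * Real.log X ^ 2 ≤
      ε / 4 * (X * Real.log X) := by
    have h1 := (isLittleO_log_rpow_atTop (r := 1 / 2) (by norm_num)).bound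
      (show (0 : ℝ) < ε / 4 / C2 by positivity)
    filter_upwards [h1, Filter.eventually_ge_atTop 1] with X h2 h3
    have hX0 : 0 < X := by linarith
    have hL : 0 ≤ Real.log X := Real.log_nonneg h3
    rw [Real.norm_of_nonneg hL, Real.norm_of_nonneg (by positivity)] at h2
    have h4 : Real.exp (Real.log X * (3 / 8)) ≤ X ^ (1 / 2 : ℝ) := by
      rw [Real.rpow_def_of_pos hX0]
      exact Real.exp_le_exp.2 (by nlinarith)
    have h5 : X ^ (1 / 2 : ℝ) * X ^ (1 / 2 : ℝ) = X := by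
      rw [← Real.rpow_add hX0]; norm_num
    have h6 : 0 < X ^ (1 / 2 : ℝ) := Real.rpow_pos_of_pos hX0 _
    calc C2 * Real.exp (Real.log X * (3 / 8)) * Real.log X ^ 2 ≤
        C2 * X ^ (1 / 2 : ℝ) * (Real.log X * (ε / 4 / C2 * X ^ (1 / 2 : ℝ))) := by
          rw [sq]; gcongr
      _ = ε / 4 * ((X ^ (1 / 2 : ℝ) * X ^ (1 / 2 : ℝ)) * Real.log X) := by field_simp
      _ = _ := by rw [h5]
  obtain ⟨T5, hT5⟩ := Filter.eventually_atTop.1 ev
  refine ⟨min e1 (3 / 4), C4, max (max T1 T2) (max (max T3 T4) T5), lt_min he1 (by norm_num), hC4,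
    hT2.trans ((le_max_right _ _).trans (le_max_left _ _)), ?_⟩
  intro X hX u hu1 hu2
  have hX1 : T1 ≤ X := (le_max_left _ _).trans ((le_max_left _ _).trans hX)
  have hX2 : T2 ≤ X := (le_max_right _ _).trans ((le_max_left _ _).trans hX)
  have hX3 : T3 ≤ X := (le_max_left _ _).trans ((le_max_left _ _).trans
    ((le_max_right _ _).trans hX))
  have hX4 : T4 ≤ X := (le_max_right _ _).trans ((le_max_left _ _).trans
    ((le_max_right _ _).trans hX))
  have hX5 : T5 ≤ X := (le_max_right _ _).trans ((le_max_right _ _).trans hX)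
  have hX100 : 100 ≤ X := hT2.trans hX2
  have hX0 : 0 < X := by linarith
  have hXge1 : 1 ≤ X := by linarith
  have hL0 : 0 ≤ Real.log X := Real.log_nonneg hXge1
  have hupos : 0 < u := lt_of_lt_of_le (by positivity) hu1
  have hu3 : u ≤ e1 * Real.log X := hu2.trans (mul_le_mul_of_nonneg_right (min_le_left _ _) hL0)
  have hu4 : u ≤ 3 / 4 * Real.log X :=
    hu2.trans (mul_le_mul_of_nonneg_right (min_le_right _ _) hL0)
  set S1 := ∑ s ∈ Zf F X (3 / 2 * X), (mult F s : ℂ) * cexp (I * u * zz s) with hS1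
  set S2 := ∑ s ∈ Zf F X (3 / 2 * X), (mult F s : ℂ) * cexp (I * ((u * s.im : ℝ) : ℂ)) with hS2
  have hmv : ‖S1 - S2‖ ≤ ε / 4 * (X * Real.log X) :=
    hmove X hX1 u (by rw [abs_of_pos hupos]; exact hu3)
  set I0 := Set.Icc (X + Real.log X) (3 / 2 * X - Real.log X) with hI0
  have hin : ‖∫ t in I0, AA F X (3 / 2 * X) u t‖ ≤ ε / 4 * (X * Real.log X) := by
    rcases le_or_gt u u0 with h | h
    · exact hsmall X hX4 u hu1 h
    · exact (norm_integral_le_integral_norm _).trans (hlarge X hX3 u h.le hu4)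
  have hou : ‖∫ t in I0ᶜ, AA F X (3 / 2 * X) u t‖ ≤ ε / 4 * (X * Real.log X) := by
    refine (norm_integral_le_integral_norm _).trans ((hout X hX2 u hupos.le).trans ?_)
    refine le_trans ?_ (hT5 X hX5)
    have : Real.exp (u / 2) ≤ Real.exp (Real.log X * (3 / 8)) := Real.exp_le_exp.2 (by linarith)
    gcongr
  have htot : ∫ t : ℝ, AA F X (3 / 2 * X) u t =
      (∫ t in I0, AA F X (3 / 2 * X) u t) + ∫ t in I0ᶜ, AA F X (3 / 2 * X) u t :=
    (integral_add_compl measurableSet_Icc (AA_int hF hXge1 u)).symm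
  have hS : Real.sqrt (2 * Real.pi) * ‖S1‖ ≤ ε / 2 * (X * Real.log X) := by
    have h1 := int_AA hF hXge1 u
    have h2 : ‖∫ t : ℝ, AA F X (3 / 2 * X) u t‖ = Real.sqrt (2 * Real.pi) * ‖S1‖ := by
      rw [h1, norm_mul, Complex.norm_real, Real.norm_of_nonneg (Real.sqrt_nonneg _)]
    rw [← h2, htot]
    refine (norm_add_le _ _).trans ?_
    linarith
  have hpi3 := Real.pi_gt_three
  have hsq2 : 1 ≤ Real.sqrt (2 * Real.pi) := by
    rw [Real.one_le_sqrt]; linarith
  have hS1n : ‖S1‖ ≤ Real.sqrt (2 * Real.pi) * ‖S1‖ := by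
    have := norm_nonneg S1
    nlinarith
  have h1 : ‖S2‖ ≤ ‖S1‖ + ‖S1 - S2‖ := by
    have h2 : S2 = S1 - (S1 - S2) := by ring
    calc ‖S2‖ = ‖S1 - (S1 - S2)‖ := by rw [← h2]
      _ ≤ _ := norm_sub_le _ _
  have h3 : 0 ≤ X * Real.log X := by positivity
  nlinarith

end Pool.Agent.W2helper80.UL
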