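import Pool.Agent.W2helper80.UL.Fam
import Pool.Agent.Q257.UM.DSC
import Pool.Agent.Q257.UM.STM
import Pool.Agent.Q97.UM.Base2

/-! The zeta function: the zeros are close to the critical line on average, and there are not too many
close pairs (from the mollified moments of the project UM). -/

set_option autoImplicit false

open Finset MeasureTheory Complex
open scoped ComplexConjugate

namespace Pool.Agent.W2helper80.UL

open H370
open Pool.Agent.Q97.UM

/-- the mean over the zeros of the sum over the nearby zeros -/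
theorem ss_zeta : ∃ δ C T0 : ℝ, 0 < δ ∧ 0 ≤ C ∧ ∀ T : ℝ, T0 ≤ T →
    ∑ s ∈ Zf riemannZeta T (2 * T), (mult riemannZeta s : ℝ) * SS δ T s.im ≤
      C * (T * Real.log T) := by
  obtain ⟨θ, c, C, hθ, hθ1, hc, hC, htail⟩ := b_TAIL
  have hstm : S_STM := Pool.Agent.Q257.UM.ST.t_STM Pool.Agent.Q84.UM.t_DPM Pool.Agent.Q84.UM.t_MVL
    Pool.Agent.Q178.UM.ZF2.t_ZF2
  have hdsc : S_DSC := Pool.Agent.Q257.UM.t_DSC Pool.Agent.Q84.UM.t_DPM Pool.Agent.Q84.UM.t_MVL
  obtain ⟨C1, hC1, h1⟩ := hstm θ c C hθ hθ1 hc hC htail 2 (c / 48) (by positivity)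
    (le_of_eq (by push_cast; ring))
  have hssb : SSB (θ / 2) (c / 48) (1 + 1) C1 := by
    unfold SSB
    exact h1
  obtain ⟨C2, hC2, h2⟩ := hdsc (θ / 2) (c / 48) 1 C1 (by positivity) (by linarith) (by positivity)
    hC1 hssb
  obtain ⟨T0, hT0⟩ := Filter.eventually_atTop.1 (h2.and (Filter.eventually_ge_atTop 1))
  refine ⟨c / 48, C2, T0, by positivity, hC2, fun T hT => ?_⟩
  obtain ⟨h3, hT1⟩ := hT0 T hT
  have h4 := h3 1 (by
    rw [Nat.cast_one]
    exact Real.one_le_rpow hT1 (by positivity)) (fun _ => 1)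
  have e1 : ∀ t : ℝ, dp 1 (fun _ => 1) t = 1 := by
    intro t
    unfold dp
    simp
  have e2 : N2 1 (fun _ => 1) = 1 := by
    unfold N2
    simp
  simp only [e1, e2, norm_one, one_pow, mul_one, pow_one] at h4
  refine le_trans (le_of_eq ?_) (h4.trans (le_of_eq (by ring)))
  exact sum_congr rfl fun s _ => rfl

lemma ZD_sub {X : ℝ} (hX : 100 ≤ X) : Zf riemannZeta X (3 / 2 * X) ⊆ ZD X := by
  intro s hs
  have h := (mem_Zf good_zeta (by linarith)).1 hs
  unfold ZD
  rw [mem_Zf good_zeta (by linarith)]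
  exact ⟨h.1, h.2.1, by linarith [h.2.2.1], by linarith [h.2.2.2.1], h.2.2.2.2⟩

lemma Z2_sub {X : ℝ} (hX : 100 ≤ X) :
    Zf riemannZeta X (3 / 2 * X) ⊆ Zf riemannZeta X (2 * X) := by
  intro s hs
  have h := (mem_Zf good_zeta (by linarith)).1 hs
  rw [mem_Zf good_zeta (by linarith)]
  exact ⟨h.1, h.2.1, h.2.2.1, by linarith [h.2.2.2.1], h.2.2.2.2⟩

lemma SS_nonneg (δ T t : ℝ) : 0 ≤ SS δ T t := by
  unfold SS
  exact sum_nonneg fun s _ => by positivity

theorem dens_zeta : Dens riemannZeta := by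
  obtain ⟨δ, C, T0, hδ, hC, h⟩ := ss_zeta
  refine ⟨2 * δ, C, max T0 100, by positivity, hC, fun X hX => ?_⟩
  have hX0 : T0 ≤ X := (le_max_left _ _).trans hX
  have hX100 : 100 ≤ X := (le_max_right _ _).trans hX
  refine le_trans ?_ (h X hX0)
  refine le_trans (sum_le_sum fun s hs => ?_)
    (sum_le_sum_of_subset_of_nonneg (Z2_sub hX100) fun s _ _ =>
      mul_nonneg (Nat.cast_nonneg _) (SS_nonneg δ X s.im))
  refine mul_le_mul_of_nonneg_left ?_ (Nat.cast_nonneg _)
  unfold SS
  have h1 := single_le_sum (f := fun s' : ℂ => (mz s' : ℝ) *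
    (Real.exp (2 * δ * (Real.log X * |s'.re - 1 / 2|)) / (1 + Real.log X * |s'.im - s.im|) ^ 2))
    (fun s' _ => by positivity) (ZD_sub hX100 hs)
  refine le_trans ?_ h1
  have h2 := (mem_Zf good_zeta (by linarith)).1 hs
  have h3 : 1 ≤ mult riemannZeta s :=
    H370.Loc.mult_pos' good_zeta (by linarith [h2.2.2.1]) h2.2.2.2.2
  have h4 : (1 : ℝ) ≤ (mz s : ℝ) := by
    have : mz s = mult riemannZeta s := rfl
    rw [this]
    exact_mod_cast h3
  rw [sub_self, abs_zero, mul_zero, add_zero, one_pow, div_one]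
  exact le_mul_of_one_le_left (Real.exp_pos _).le h4

theorem prs_zeta : Prs riemannZeta := by
  classical
  obtain ⟨δ, C, T0, hδ, hC, h⟩ := ss_zeta
  refine ⟨4 * C, max T0 100, by positivity, fun X hX => ?_⟩
  have hX0 : T0 ≤ X := (le_max_left _ _).trans hX
  have hX100 : 100 ≤ X := (le_max_right _ _).trans hX
  have hL : 0 < Real.log X := Real.log_pos (by linarith)
  have h0 : ∑ s ∈ Zf riemannZeta X (3 / 2 * X), (mult riemannZeta s : ℝ) * SS δ X s.im ≤
      C * (X * Real.log X) := by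
    refine le_trans ?_ (h X hX0)
    exact sum_le_sum_of_subset_of_nonneg (Z2_sub hX100) fun s _ _ =>
      mul_nonneg (Nat.cast_nonneg _) (SS_nonneg δ X s.im)
  have h1 : ∀ s ∈ Zf riemannZeta X (3 / 2 * X), ∑ s' ∈ Zf riemannZeta X (3 / 2 * X),
      (mult riemannZeta s : ℝ) * (mult riemannZeta s' : ℝ) *
        (if |s.im - s'.im| ≤ 1 / Real.log X then (1 : ℝ) else 0) ≤
      4 * ((mult riemannZeta s : ℝ) * SS δ X s.im) := by
    intro s _
    unfold SS
    rw [mul_sum, mul_sum]
    refine le_trans (sum_le_sum fun s' _ => ?_)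
      (sum_le_sum_of_subset_of_nonneg (ZD_sub hX100) fun s' _ _ => by positivity)
    have e1 : mz s' = mult riemannZeta s' := rfl
    rw [e1]
    by_cases h2 : |s.im - s'.im| ≤ 1 / Real.log X
    · rw [if_pos h2, mul_one]
      have h3 : Real.log X * |s'.im - s.im| ≤ 1 := by
        rw [abs_sub_comm]
        rw [le_div_iff₀ hL] at h2
        linarith
      have h4 : 0 ≤ Real.log X * |s'.im - s.im| := by positivity
      have h5 : (1 + Real.log X * |s'.im - s.im|) ^ 2 ≤ 4 := by nlinarith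
      have h6 : 1 ≤ Real.exp (2 * δ * (Real.log X * |s'.re - 1 / 2|)) :=
        Real.one_le_exp (by positivity)
      have h7 : 1 ≤ 4 * (Real.exp (2 * δ * (Real.log X * |s'.re - 1 / 2|)) /
          (1 + Real.log X * |s'.im - s.im|) ^ 2) := by
        rw [mul_div_assoc', le_div_iff₀ (by positivity)]
        linarith
      calc (mult riemannZeta s : ℝ) * (mult riemannZeta s' : ℝ) =
          (mult riemannZeta s : ℝ) * (mult riemannZeta s' : ℝ) * 1 := by ring
        _ ≤ (mult riemannZeta s : ℝ) * (mult riemannZeta s' : ℝ) *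
          (4 * (Real.exp (2 * δ * (Real.log X * |s'.re - 1 / 2|)) /
          (1 + Real.log X * |s'.im - s.im|) ^ 2)) :=
            mul_le_mul_of_nonneg_left h7 (by positivity)
        _ = _ := by ring
    · rw [if_neg h2, mul_zero]
      positivity
  refine (sum_le_sum h1).trans ?_
  rw [← mul_sum]
  linarith

end Pool.Agent.W2helper80.UL
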